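import Pool.Agent.Helper663.Sc.Small

/-! Cone operators on contractible subsets. -/

namespace Pool.Agent.Helper663.Sc

universe u v w

section Cone

/-- the join map `(s, u) ↦ (s, (1-s) u)` -/
noncomputable def joinFun (q : ℕ) (p : unitInterval × Dl q) : Dl (q + 1) :=
  ⟨Fin.cons p.1.1 (fun i => (1 - p.1.1) * p.2.1 i), by
    constructor
    · intro i
      refine Fin.cases ?_ (fun i => ?_) i
      · simpa using p.1.2.1
      · simp only [Fin.cons_succ]
        exact mul_nonneg (by linarith [p.1.2.2]) (p.2.2.1 i)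
    · rw [Fin.sum_univ_succ]
      simp only [Fin.cons_zero, Fin.cons_succ]
      rw [← Finset.mul_sum, p.2.2.2]
      ring⟩

theorem joinFun_zero (q : ℕ) (p : unitInterval × Dl q) : (joinFun q p).1 0 = p.1.1 := rfl

theorem joinFun_succ (q : ℕ) (p : unitInterval × Dl q) (i : Fin (q + 1)) :
    (joinFun q p).1 i.succ = (1 - p.1.1) * p.2.1 i := rfl

theorem continuous_joinFun (q : ℕ) : Continuous (joinFun q) := by
  apply Continuous.subtype_mk
  apply continuous_pi
  intro i
  refine Fin.cases ?_ (fun i => ?_) i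
  · exact continuous_subtype_val.comp continuous_fst
  · apply Continuous.mul
    · exact continuous_const.sub (continuous_subtype_val.comp continuous_fst)
    · exact (continuous_apply i).comp (continuous_subtype_val.comp continuous_snd)

noncomputable def join (q : ℕ) : C(unitInterval × Dl q, Dl (q + 1)) :=
  ⟨joinFun q, continuous_joinFun q⟩

theorem join_surjective (q : ℕ) : Function.Surjective (join q) := by
  intro t
  have ht0 : 0 ≤ t.1 0 := t.2.1 0
  have ht1 : t.1 0 ≤ 1 := by
    rw [← t.2.2]
    exact Finset.single_le_sum (fun i _ => t.2.1 i) (Finset.mem_univ _)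
  have hsum : ∑ i : Fin (q + 1), t.1 i.succ = 1 - t.1 0 := by
    have := t.2.2
    rw [Fin.sum_univ_succ] at this
    linarith
  by_cases h : t.1 0 = 1
  · refine ⟨(⟨t.1 0, ht0, ht1⟩, vert q 0), ?_⟩
    apply Subtype.ext
    funext i
    refine Fin.cases ?_ (fun i => ?_) i
    · rfl
    · change (1 - t.1 0) * (vert q 0).1 i = t.1 i.succ
      rw [h, sub_self, zero_mul]
      rw [h, sub_self] at hsum
      have := (Finset.sum_eq_zero_iff_of_nonneg (fun i _ => t.2.1 (Fin.succ i))).mp hsum i
        (Finset.mem_univ _)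
      exact this.symm
  · have hpos : 0 < 1 - t.1 0 := by
      rcases lt_or_eq_of_le ht1 with h' | h'
      · linarith
      · exact absurd h' h
    refine ⟨(⟨t.1 0, ht0, ht1⟩, ⟨fun i => t.1 i.succ / (1 - t.1 0), ?_, ?_⟩), ?_⟩
    · intro i
      exact div_nonneg (t.2.1 _) hpos.le
    · rw [← Finset.sum_div, hsum, div_self hpos.ne']
    · apply Subtype.ext
      funext i
      refine Fin.cases ?_ (fun i => ?_) i
      · rfl
      · change (1 - t.1 0) * (t.1 i.succ / (1 - t.1 0)) = t.1 i.succ
        field_simp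

theorem join_quotient (q : ℕ) : Topology.IsQuotientMap (join q) :=
  ((join q).continuous.isClosedMap).isQuotientMap (join q).continuous (join_surjective q)

theorem join_eq_iff (q : ℕ) (p p' : unitInterval × Dl q) (h : join q p = join q p') :
    p.1 = p'.1 ∧ (p.1.1 = 1 ∨ p.2 = p'.2) := by
  have h0 : p.1.1 = p'.1.1 := congrArg (fun x : Dl (q + 1) => x.1 0) h
  refine ⟨Subtype.ext h0, ?_⟩
  by_cases h1 : p.1.1 = 1
  · exact Or.inl h1
  · right
    apply Subtype.ext
    funext i
    have h2 : (1 - p.1.1) * p.2.1 i = (1 - p'.1.1) * p'.2.1 i :=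
      congrArg (fun x : Dl (q + 1) => x.1 i.succ) h
    rw [← h0] at h2
    exact mul_left_cancel₀ (sub_ne_zero.mpr (Ne.symm h1)) h2

variable {X : Type u} [TopologicalSpace X] (C : Set X)

/-- restrict the codomain of a singular simplex -/
noncomputable def toC {q : ℕ} (σ : Sing X q) (h : Set.range σ ⊆ C) : C(Dl q, C) :=
  ⟨fun u => ⟨σ u, h ⟨u, rfl⟩⟩, σ.continuous.subtype_mk _⟩

variable (p : C) (F : ContinuousMap.Homotopy (ContinuousMap.id C) (ContinuousMap.const C p))

noncomputable def preK {q : ℕ} (σ : Sing X q) (h : Set.range σ ⊆ C) : C(unitInterval × Dl q, C) :=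
  ⟨fun z => F (z.1, toC C σ h z.2), by fun_prop⟩

theorem preK_factors {q : ℕ} (σ : Sing X q) (h : Set.range σ ⊆ C) :
    Function.FactorsThrough (preK C p F σ h) (join q) := by
  intro z z' hz
  obtain ⟨h1, h2⟩ := join_eq_iff q z z' hz
  change F (z.1, toC C σ h z.2) = F (z'.1, toC C σ h z'.2)
  rcases h2 with h2 | h2
  · have e1 : z.1 = 1 := Subtype.ext h2
    rw [← h1, e1]
    simp
  · rw [h1, h2]

open Classical in
noncomputable def KC (q : ℕ) (σ : Sing X q) : Sing X (q + 1) :=
  if h : Set.range σ ⊆ C then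
    (⟨Subtype.val, continuous_subtype_val⟩ : C(C, X)).comp
      ((join_quotient q).lift (preK C p F σ h) (preK_factors C p F σ h))
  else ContinuousMap.const _ p.1

theorem KC_join {q : ℕ} (σ : Sing X q) (h : Set.range σ ⊆ C) (s : unitInterval) (u : Dl q) :
    KC C p F q σ (join q (s, u)) = (F (s, toC C σ h u)).1 := by
  rw [KC, dif_pos h, ContinuousMap.comp_apply]
  have := (join_quotient q).lift_comp (preK C p F σ h) (preK_factors C p F σ h)
  have h2 := congrArg (fun f => f (s, u)) this
  simp only [ContinuousMap.comp_apply] at h2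
  change ((join_quotient q).lift (preK C p F σ h) (preK_factors C p F σ h) (join q (s, u))).1 = _
  rw [h2]
  rfl

theorem KC_range {q : ℕ} (σ : Sing X q) (h : Set.range σ ⊆ C) :
    Set.range (KC C p F q σ) ⊆ C := by
  rintro _ ⟨t, rfl⟩
  obtain ⟨⟨s, u⟩, rfl⟩ := join_surjective q t
  rw [KC_join C p F σ h]
  exact Subtype.mem _

theorem face_join_zero (q : ℕ) (u : Dl q) :
    aff (fun j => vert (q + 1) ((0 : Fin (q + 2)).succAbove j)) u = join q (0, u) := by
  apply Subtype.ext
  rw [aff_coe]
  funext l
  simp only [Finset.sum_apply, Pi.smul_apply, smul_eq_mul, Fin.succAbove_zero]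
  refine Fin.cases ?_ (fun l => ?_) l
  · change _ = (0 : ℝ)
    apply Finset.sum_eq_zero
    intro i _
    rw [vert_ne _ _ _ (Fin.succ_ne_zero i).symm, mul_zero]
  · change _ = (1 - 0) * u.1 l
    rw [Finset.sum_eq_single l]
    · rw [vert_self]; ring
    · intro i _ hi
      rw [vert_ne, mul_zero]
      intro he
      exact hi (Fin.succ_injective _ he).symm
    · simp

theorem face_join_succ (q : ℕ) (i : Fin (q + 2)) (s : unitInterval) (u : Dl q) :
    aff (fun j => vert (q + 2) (i.succ.succAbove j)) (join q (s, u)) =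
      join (q + 1) (s, aff (fun j => vert (q + 1) (i.succAbove j)) u) := by
  apply Subtype.ext
  rw [aff_coe]
  funext l
  simp only [Finset.sum_apply, Pi.smul_apply, smul_eq_mul]
  rw [Fin.sum_univ_succ]
  have h0 : (join q (s, u)).1 0 = s.1 := rfl
  have h1 : ∀ j : Fin (q + 1), (join q (s, u)).1 j.succ = (1 - s.1) * u.1 j := fun j => rfl
  rw [h0, Fin.succ_succAbove_zero]
  simp only [h1, Fin.succ_succAbove_succ]
  refine Fin.cases ?_ (fun l => ?_) l
  · change _ = s.1
    rw [vert_self, Finset.sum_eq_zero]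
    · ring
    · intro j _
      rw [vert_ne _ _ _ (Fin.succ_ne_zero _).symm, mul_zero]
  · change _ = (1 - s.1) * (aff (fun j => vert (q + 1) (i.succAbove j)) u).1 l
    rw [vert_ne _ _ _ (Fin.succ_ne_zero l), mul_zero, zero_add, aff_coe]
    simp only [Finset.sum_apply, Pi.smul_apply, smul_eq_mul, Finset.mul_sum]
    refine Finset.sum_congr rfl fun j _ => ?_
    rw [mul_assoc]
    congr 2
    by_cases hj : i.succAbove j = l
    · rw [hj, vert_self, vert_self]
    · rw [vert_ne _ _ _ (Ne.symm hj), vert_ne]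
      intro he
      exact hj (Fin.succ_injective _ he).symm

theorem face_join_one (u : Dl 0) :
    aff (fun j => vert 1 ((1 : Fin 2).succAbove j)) u = join 0 (1, u) := by
  apply Subtype.ext
  rw [aff_coe]
  funext l
  have hu : u.1 0 = 1 := by
    have := u.2.2
    simpa using this
  have e : (∑ i : Fin (0 + 1), u.1 i • (vert 1 ((1 : Fin 2).succAbove i)).1) l =
      (vert 1 ((1 : Fin 2).succAbove 0)).1 l := by
    rw [Finset.sum_apply, Finset.sum_eq_single 0]
    · simp only [Pi.smul_apply, smul_eq_mul, hu, one_mul]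
    · intro b _ hb
      exact absurd (Subsingleton.elim (α := Fin 1) b 0) hb
    · simp
  refine e.trans ?_
  refine Fin.cases ?_ (fun l => ?_) l
  · change _ = (1 : ℝ)
    exact vert_self 1 0
  · change _ = (1 - 1) * u.1 l
    rw [sub_self, zero_mul]
    apply vert_ne
    have : (1 : Fin 2).succAbove (0 : Fin 1) = 0 := rfl
    rw [this]
    exact Fin.succ_ne_zero l

theorem coneData_of_nullhomotopic (p : C)
    (F : ContinuousMap.Homotopy (ContinuousMap.id C) (ContinuousMap.const C p)) :
    ConeData C := by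
  refine ⟨p.1, KC C p F, p.2, ?_, ?_, ?_⟩
  · intro q σ h
    refine ⟨KC_range C p F σ h, ?_⟩
    apply ContinuousMap.ext
    intro u
    rw [sface_eq, ContinuousMap.comp_apply, face_join_zero, KC_join C p F σ h]
    simp [toC]
  · intro q σ h i
    apply ContinuousMap.ext
    intro t
    obtain ⟨⟨s, u⟩, rfl⟩ := join_surjective q t
    rw [sface_eq, ContinuousMap.comp_apply, face_join_succ, KC_join C p F σ h,
      KC_join C p F (sface q i σ) ((range_sface q i σ).trans h)]
    congr 3
    apply Subtype.ext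
    change σ _ = (sface q i σ) u
    rw [sface_eq]
    rfl
  · intro σ h
    apply ContinuousMap.ext
    intro u
    rw [sface_eq, ContinuousMap.comp_apply, face_join_one, KC_join C p F σ h]
    simp

end Cone

end Pool.Agent.Helper663.Sc
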