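import Pool.Agent.Helper663.Sc.MV
import Pool.Agent.Helper663.Sc.Cone

/-! The realization of a finite poset and its cohomology. -/

namespace Pool.Agent.Helper663.Sc

universe u

set_option linter.unusedSectionVars false

section Real

variable {S : Type} [CompleteLattice S] [Finite S] (A : Set S)

/-- the realization of the order complex of `A` -/
def RR : Set (S → ℝ) :=
  {x | (∀ t, 0 ≤ x t) ∧ (∀ t, x t ≠ 0 → t ∈ A) ∧ (∑ᶠ t, x t) = 1 ∧
    ∀ a b, x a ≠ 0 → x b ≠ 0 → a ≤ b ∨ b ≤ a}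

variable {A}

theorem RR_supp_nonempty {x : S → ℝ} (h : x ∈ RR A) : ∃ t, x t ≠ 0 := by
  by_contra hcon
  push Not at hcon
  have : (∑ᶠ t, x t) = 0 := by
    rw [finsum_eq_zero_of_forall_eq_zero hcon]
  rw [h.2.2.1] at this
  exact one_ne_zero this

/-- the smallest element of the support -/
theorem RR_min {x : S → ℝ} (h : x ∈ RR A) :
    ∃ m, x m ≠ 0 ∧ ∀ t, x t ≠ 0 → m ≤ t := by
  have hf : {t | x t ≠ 0}.Finite := Set.toFinite _
  obtain ⟨m, hm, hmin⟩ := hf.exists_minimal (RR_supp_nonempty h)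
  refine ⟨m, hm, fun t ht => ?_⟩
  rcases h.2.2.2 m t hm ht with h1 | h1
  · exact h1
  · exact hmin ht h1

/-- the basic open sets -/
def Up (A : Set S) (p : S) : Set (RR A) := {x | ∃ q, q ≤ p ∧ x.1 q ≠ 0}

theorem continuous_coord (q : S) : Continuous fun x : RR A => x.1 q :=
  (continuous_apply q).comp continuous_subtype_val

theorem isOpen_Up (p : S) : IsOpen (Up A p) := by
  have : Up A p = ⋃ q : {q : S // q ≤ p}, {x : RR A | x.1 q ≠ 0} := by
    ext x
    simp only [Up, Set.mem_iUnion, Set.mem_ofPred_eq, Subtype.exists]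
    constructor
    · rintro ⟨q, h1, h2⟩; exact ⟨q, h1, h2⟩
    · rintro ⟨q, h1, h2⟩; exact ⟨q, h1, h2⟩
  rw [this]
  exact isOpen_iUnion fun q => isOpen_ne_fun (continuous_coord q.1) continuous_const

open Classical in
/-- vertices of the realization -/
noncomputable def vx (p : S) : S → ℝ := fun t => if t = p then 1 else 0

theorem vx_self (p : S) : vx p p = 1 := if_pos rfl
theorem vx_ne {p t : S} (h : t ≠ p) : vx p t = 0 := if_neg h

theorem vx_supp {p t : S} (h : vx p t ≠ 0) : t = p := by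
  by_contra hne
  exact h (vx_ne hne)

theorem vx_sum (p : S) : ∑ᶠ t, vx p t = 1 := by
  rw [finsum_eq_single _ p (fun t ht => vx_ne ht), vx_self]

theorem vx_mem {p : S} (hp : p ∈ A) : vx p ∈ RR A := by
  refine ⟨fun t => ?_, fun t ht => ?_, vx_sum p, fun a b ha hb => ?_⟩
  · rw [vx]; split_ifs <;> norm_num
  · rw [vx_supp ht]; exact hp
  · rw [vx_supp ha, vx_supp hb]; exact Or.inl le_rfl

theorem Up_mono {p q : S} (h : p ≤ q) : Up A p ⊆ Up A q := by
  rintro x ⟨r, hr, hx⟩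
  exact ⟨r, hr.trans h, hx⟩

theorem Up_le_iff {p q : S} (hp : p ∈ A) : Up A p ⊆ Up A q ↔ p ≤ q := by
  constructor
  · intro h
    have h1 : (⟨vx p, vx_mem hp⟩ : RR A) ∈ Up A p := ⟨p, le_rfl, by
      change vx p p ≠ 0
      rw [vx_self]; exact one_ne_zero⟩
    obtain ⟨r, hr, hx⟩ := h h1
    rw [vx_supp hx] at hr
    exact hr
  · exact Up_mono

theorem RR_comb {x y : S → ℝ} (hx : x ∈ RR A) (hy : y ∈ RR A)
    (h : ∀ a b, (x a ≠ 0 ∨ y a ≠ 0) → (x b ≠ 0 ∨ y b ≠ 0) → a ≤ b ∨ b ≤ a) {s : ℝ}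
    (h0 : 0 ≤ s) (h1 : s ≤ 1) : (fun t => (1 - s) * x t + s * y t) ∈ RR A := by
  have hs : ∀ t, (1 - s) * x t + s * y t ≠ 0 → x t ≠ 0 ∨ y t ≠ 0 := by
    intro t ht
    by_contra hcon
    push Not at hcon
    rw [hcon.1, hcon.2] at ht
    exact ht (by ring)
  refine ⟨fun t => ?_, fun t ht => ?_, ?_, fun a b ha hb => h a b (hs a ha) (hs b hb)⟩
  · have e1 := mul_nonneg (show (0 : ℝ) ≤ 1 - s by linarith) (hx.1 t)
    have e2 := mul_nonneg h0 (hy.1 t)
    linarith
  · rcases hs t ht with h' | h'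
    · exact hx.2.1 t h'
    · exact hy.2.1 t h'
  · rw [finsum_add_distrib (Set.toFinite _) (Set.toFinite _), ← mul_finsum, ← mul_finsum,
      hx.2.2.1, hy.2.2.1]
    ring

open Classical in
/-- part of a point below `p` -/
noncomputable def cut (p : S) (x : S → ℝ) : S → ℝ := fun t => if t ≤ p then x t else 0

theorem cut_supp {p t : S} {x : S → ℝ} (h : cut p x t ≠ 0) : t ≤ p ∧ x t ≠ 0 := by
  rw [cut] at h
  split_ifs at h with h1
  · exact ⟨h1, h⟩
  · exact absurd rfl h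

theorem cut_of_le {p t : S} {x : S → ℝ} (h : t ≤ p) : cut p x t = x t := if_pos h

/-- mass of a point below `p` -/
noncomputable def mass (p : S) (x : S → ℝ) : ℝ := ∑ᶠ t, cut p x t

theorem cut_nonneg {x : S → ℝ} (h : ∀ t, 0 ≤ x t) (p t : S) : 0 ≤ cut p x t := by
  rw [cut]
  split_ifs
  · exact h t
  · exact le_rfl

theorem mass_pos {x : S → ℝ} (h : ∀ t, 0 ≤ x t) {p q : S} (hq : q ≤ p) (hx : x q ≠ 0) :
    0 < mass p x := by
  have : Fintype S := Fintype.ofFinite S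
  rw [mass, finsum_eq_sum_of_fintype]
  apply Finset.sum_pos'
  · intro t _
    exact cut_nonneg h p t
  · refine ⟨q, Finset.mem_univ _, ?_⟩
    rw [cut_of_le hq]
    exact lt_of_le_of_ne (h q) (Ne.symm hx)

theorem continuous_mass {X : Type*} [TopologicalSpace X] {f : X → S → ℝ} (hf : Continuous f)
    (p : S) : Continuous fun x => mass p (f x) := by
  have : Fintype S := Fintype.ofFinite S
  have e : (fun x => mass p (f x)) = fun x => ∑ t, cut p (f x) t := by
    funext x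
    rw [mass, finsum_eq_sum_of_fintype]
  rw [e]
  apply continuous_finsetSum
  intro t _
  unfold cut
  split_ifs
  · exact (continuous_apply t).comp hf
  · exact continuous_const

/-- renormalized part below `p` -/
noncomputable def ncut (p : S) (x : S → ℝ) : S → ℝ := fun t => cut p x t / mass p x

theorem ncut_supp {p t : S} {x : S → ℝ} (h : ncut p x t ≠ 0) : t ≤ p ∧ x t ≠ 0 := by
  apply cut_supp
  intro h'
  exact h (by rw [ncut, h', zero_div])

theorem ncut_mem {p : S} {x : S → ℝ} (hx : x ∈ RR A) (hp : ∃ q, q ≤ p ∧ x q ≠ 0) :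
    ncut p x ∈ RR A := by
  obtain ⟨q, hq, hxq⟩ := hp
  have hm := mass_pos hx.1 hq hxq
  refine ⟨fun t => ?_, fun t ht => ?_, ?_, fun a b ha hb => ?_⟩
  · exact div_nonneg (cut_nonneg hx.1 p t) hm.le
  · exact hx.2.1 t (ncut_supp ht).2
  · have : Fintype S := Fintype.ofFinite S
    have hm' : mass p x = ∑ t, cut p x t := by rw [mass, finsum_eq_sum_of_fintype]
    rw [finsum_eq_sum_of_fintype]
    simp only [ncut]
    rw [← Finset.sum_div, ← hm', div_self hm.ne']
  · exact hx.2.2.2 a b (ncut_supp ha).2 (ncut_supp hb).2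

theorem continuous_ncut {X : Type*} [TopologicalSpace X] {f : X → S → ℝ} (hf : Continuous f)
    (p : S) (h : ∀ x, 0 < mass p (f x)) : Continuous fun x => ncut p (f x) := by
  apply continuous_pi
  intro t
  unfold ncut
  apply Continuous.div _ (continuous_mass hf p) (fun x => (h x).ne')
  unfold cut
  split_ifs
  · exact (continuous_apply t).comp hf
  · exact continuous_const

theorem Up_mass {p : S} (x : RR A) (h : x ∈ Up A p) : 0 < mass p x.1 := by
  obtain ⟨q, hq, hxq⟩ := h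
  exact mass_pos x.2.1 hq hxq

/-- the first map -/
noncomputable def g1 (A : Set S) (p : S) : C(Up A p, Up A p) :=
  ⟨fun x => ⟨⟨ncut p x.1.1, ncut_mem x.1.2 x.2⟩, by
    obtain ⟨t, ht⟩ := RR_supp_nonempty (ncut_mem x.1.2 x.2)
    exact ⟨t, (ncut_supp ht).1, ht⟩⟩, by
    apply Continuous.subtype_mk
    apply Continuous.subtype_mk
    exact continuous_ncut (continuous_subtype_val.comp continuous_subtype_val) p
      (fun x => Up_mass x.1 x.2)⟩

theorem comb_mem1 {p : S} (x : Up A p) {s : ℝ} (h0 : 0 ≤ s) (h1 : s ≤ 1) :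
    (fun t => (1 - s) * x.1.1 t + s * ncut p x.1.1 t) ∈ RR A := by
  apply RR_comb x.1.2 (ncut_mem x.1.2 x.2) _ h0 h1
  intro a b ha hb
  apply x.1.2.2.2.2
  · rcases ha with h | h
    · exact h
    · exact (ncut_supp h).2
  · rcases hb with h | h
    · exact h
    · exact (ncut_supp h).2

theorem comb_mem1' {p : S} (x : Up A p) {s : ℝ} (h0 : 0 ≤ s) (h1 : s ≤ 1) :
    (⟨_, comb_mem1 x h0 h1⟩ : RR A) ∈ Up A p := by
  obtain ⟨q, hq, hxq⟩ := x.2
  refine ⟨q, hq, ?_⟩
  change (1 - s) * x.1.1 q + s * ncut p x.1.1 q ≠ 0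
  have hm := Up_mass x.1 x.2
  have hpos : 0 < x.1.1 q := lt_of_le_of_ne (x.1.2.1 q) (Ne.symm hxq)
  rw [ncut, cut_of_le hq]
  have e1 : 0 ≤ (1 - s) * x.1.1 q := mul_nonneg (by linarith) hpos.le
  have e2 : 0 ≤ s * (x.1.1 q / mass p x.1.1) := mul_nonneg h0 (div_pos hpos hm).le
  intro hcon
  rcases eq_or_lt_of_le h0 with h | h
  · rw [← h] at hcon
    simp only [sub_zero, one_mul, zero_mul, add_zero] at hcon
    exact hxq hcon
  · have e3 : 0 < s * (x.1.1 q / mass p x.1.1) := mul_pos h (div_pos hpos hm)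
    linarith

theorem comb_mem2 {p : S} (hp : p ∈ A) (x : Up A p) {s : ℝ} (h0 : 0 ≤ s) (h1 : s ≤ 1) :
    (fun t => (1 - s) * ncut p x.1.1 t + s * vx p t) ∈ RR A := by
  apply RR_comb (ncut_mem x.1.2 x.2) (vx_mem hp) _ h0 h1
  intro a b ha hb
  rcases ha with ha | ha
  · rcases hb with hb | hb
    · exact x.1.2.2.2.2 a b (ncut_supp ha).2 (ncut_supp hb).2
    · left
      rw [vx_supp hb]
      exact (ncut_supp ha).1
  · rw [vx_supp ha]
    rcases hb with hb | hb
    · exact Or.inr (ncut_supp hb).1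
    · rw [vx_supp hb]; exact Or.inl le_rfl

theorem comb_mem2' {p : S} (hp : p ∈ A) (x : Up A p) {s : ℝ} (h0 : 0 ≤ s) (h1 : s ≤ 1) :
    (⟨_, comb_mem2 hp x h0 h1⟩ : RR A) ∈ Up A p := by
  obtain ⟨t, ht⟩ := RR_supp_nonempty (comb_mem2 hp x h0 h1)
  refine ⟨t, ?_, ht⟩
  by_contra hcon
  have e1 : ncut p x.1.1 t = 0 := by
    by_contra hh
    exact hcon (ncut_supp hh).1
  have e2 : vx p t = 0 := vx_ne (fun hh => hcon hh.le)
  simp only [e1, e2] at ht
  exact ht (by ring)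

noncomputable def F1 (A : Set S) (p : S) :
    ContinuousMap.Homotopy (ContinuousMap.id (Up A p)) (g1 A p) where
  toFun z := ⟨⟨_, comb_mem1 z.2 z.1.2.1 z.1.2.2⟩, comb_mem1' z.2 z.1.2.1 z.1.2.2⟩
  continuous_toFun := by
    apply Continuous.subtype_mk
    apply Continuous.subtype_mk
    apply continuous_pi
    intro t
    have c1 : Continuous fun z : unitInterval × Up A p => (z.1 : ℝ) :=
      continuous_subtype_val.comp continuous_fst
    have c2 : Continuous fun z : unitInterval × Up A p => z.2.1.1 :=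
      continuous_subtype_val.comp (continuous_subtype_val.comp continuous_snd)
    have c3 := continuous_ncut c2 p (fun z => Up_mass z.2.1 z.2.2)
    exact ((continuous_const.sub c1).mul ((continuous_apply t).comp c2)).add
      (c1.mul ((continuous_apply t).comp c3))
  map_zero_left x := by
    apply Subtype.ext
    apply Subtype.ext
    funext t
    change (1 - 0) * x.1.1 t + 0 * ncut p x.1.1 t = x.1.1 t
    ring
  map_one_left x := by
    apply Subtype.ext
    apply Subtype.ext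
    funext t
    change (1 - 1) * x.1.1 t + 1 * ncut p x.1.1 t = ncut p x.1.1 t
    ring

/-- the vertex as a point of `Up` -/
noncomputable def vU {p : S} (hp : p ∈ A) : Up A p :=
  ⟨⟨vx p, vx_mem hp⟩, ⟨p, le_rfl, by
    change vx p p ≠ 0
    rw [vx_self]; exact one_ne_zero⟩⟩

noncomputable def F2 {p : S} (hp : p ∈ A) :
    ContinuousMap.Homotopy (g1 A p) (ContinuousMap.const (Up A p) (vU hp)) where
  toFun z := ⟨⟨_, comb_mem2 hp z.2 z.1.2.1 z.1.2.2⟩, comb_mem2' hp z.2 z.1.2.1 z.1.2.2⟩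
  continuous_toFun := by
    apply Continuous.subtype_mk
    apply Continuous.subtype_mk
    apply continuous_pi
    intro t
    have c1 : Continuous fun z : unitInterval × Up A p => (z.1 : ℝ) :=
      continuous_subtype_val.comp continuous_fst
    have c2 : Continuous fun z : unitInterval × Up A p => z.2.1.1 :=
      continuous_subtype_val.comp (continuous_subtype_val.comp continuous_snd)
    have c3 := continuous_ncut c2 p (fun z => Up_mass z.2.1 z.2.2)
    exact ((continuous_const.sub c1).mul ((continuous_apply t).comp c3)).add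
      (c1.mul continuous_const)
  map_zero_left x := by
    apply Subtype.ext
    apply Subtype.ext
    funext t
    change (1 - 0) * ncut p x.1.1 t + 0 * vx p t = ncut p x.1.1 t
    ring
  map_one_left x := by
    apply Subtype.ext
    apply Subtype.ext
    funext t
    change (1 - 1) * ncut p x.1.1 t + 1 * vx p t = vx p t
    ring

theorem coneData_Up {p : S} (hp : p ∈ A) : ConeData (Up A p) :=
  coneData_of_nullhomotopic (Up A p) (vU hp) ((F1 A p).trans (F2 hp))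

/-- the cover -/
def UU (A : Set S) : Set (Set (RR A)) := Up A '' A

theorem UU_open : ∀ C ∈ UU A, IsOpen C := by
  rintro _ ⟨p, _, rfl⟩
  exact isOpen_Up p

theorem UU_cover : ∀ x : RR A, ∃ C ∈ UU A, x ∈ C := by
  intro x
  obtain ⟨t, ht⟩ := RR_supp_nonempty x.2
  exact ⟨Up A t, ⟨t, x.2.2.1 t ht, rfl⟩, t, le_rfl, ht⟩

theorem UU_cap (hA : ∀ M : Set S, M ⊆ A → M.Nonempty → (∃ p ∈ A, ∀ m ∈ M, m ≤ p) → sSup M ∈ A)
    (σ : Σ n, Sing (RR A) n) (h : ∃ C ∈ UU A, Set.range σ.2 ⊆ C) :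
    ∃ J ∈ UU A, Set.range σ.2 ⊆ J ∧ ∀ C ∈ UU A, Set.range σ.2 ⊆ C → J ⊆ C := by
  obtain ⟨n, σ⟩ := σ
  obtain ⟨_, ⟨p, hp, rfl⟩, hσ⟩ := h
  simp only at hσ ⊢
  let M : Set S := {m | ∃ t, (σ t).1 m ≠ 0 ∧ ∀ r, (σ t).1 r ≠ 0 → m ≤ r}
  have hM1 : M ⊆ A := by
    rintro m ⟨t, h1, _⟩
    exact (σ t).2.2.1 m h1
  have hM2 : M.Nonempty := by
    obtain ⟨m, h1, h2⟩ := RR_min (σ (vert n 0)).2
    exact ⟨m, vert n 0, h1, h2⟩
  have hM3 : ∀ q, Set.range σ ⊆ Up A q → ∀ m ∈ M, m ≤ q := by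
    rintro q hq m ⟨t, _, h2⟩
    obtain ⟨r, hr, hxr⟩ := hq ⟨t, rfl⟩
    exact (h2 r hxr).trans hr
  have hJ := hA M hM1 hM2 ⟨p, hp, hM3 p hσ⟩
  refine ⟨Up A (sSup M), ⟨_, hJ, rfl⟩, ?_, ?_⟩
  · rintro _ ⟨t, rfl⟩
    obtain ⟨m, h1, h2⟩ := RR_min (σ t).2
    exact ⟨m, le_sSup ⟨t, h1, h2⟩, h1⟩
  · rintro _ ⟨q, hq, rfl⟩ hσq
    exact Up_mono (sSup_le (hM3 q hσq))

/-- no `2`-torsion in the quotient form -/
theorem no_two_sing {X : Type*} [TopologicalSpace X] {n : ℕ} (h : NT X n)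
    (x : SingCoh ℤ X (n + 1)) (hx : (2 : ℤ) • x = 0) : x = 0 := by
  obtain ⟨⟨c, hc⟩, rfl⟩ := Submodule.mkQ_surjective _ x
  rw [← map_smul, Submodule.mkQ_apply, Submodule.Quotient.mk_eq_zero] at hx
  obtain ⟨b, hb⟩ := hx
  obtain ⟨b', hb'⟩ := h c b hb.symm
  rw [Submodule.mkQ_apply, Submodule.Quotient.mk_eq_zero]
  exact ⟨b', hb'.symm⟩

theorem no_two_ord (hA : ∀ M : Set S, M ⊆ A → M.Nonempty → (∃ p ∈ A, ∀ m ∈ M, m ≤ p) → sSup M ∈ A)
    (hne : A.Nonempty) {n : ℕ} (h : NT (RR A) n) (x : OrdCoh ℤ (UU A) (n + 1))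
    (hx : (2 : ℤ) • x = 0) : x = 0 := by
  obtain ⟨p, hp⟩ := hne
  have : Nonempty (RR A) := ⟨⟨vx p, vx_mem hp⟩⟩
  obtain ⟨e1⟩ := small_simplices (k := ℤ) (UU A) UU_open UU_cover (n + 1)
  obtain ⟨e2⟩ := nerve_small (k := ℤ) (UU A) (UU_cap hA)
    (by rintro _ ⟨p, hp, rfl⟩; exact coneData_Up hp) (n + 1)
  have h1 : (2 : ℤ) • (e1.symm (e2.symm x)) = 0 := by
    rw [← map_smul, ← map_smul, hx, map_zero, map_zero]
  have h2 := no_two_sing h _ h1
  have h3 : e2.symm x = 0 := by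
    apply e1.symm.injective
    rw [h2, map_zero]
  apply e2.symm.injective
  rw [h3, map_zero]

theorem no_two_UU (hA : ∀ M : Set S, M ⊆ A → M.Nonempty → (∃ p ∈ A, ∀ m ∈ M, m ≤ p) → sSup M ∈ A)
    (hne : A.Nonempty) {n : ℕ} (h : NT (RR A) n) (g : Ch (UU A) (n + 1) → ℤ)
    (b : Ch (UU A) n → ℤ) (hg : (2 : ℤ) • g = altd ℤ (cface (Q := UU A)) n b) :
    ∃ b' : Ch (UU A) n → ℤ, g = altd ℤ (cface (Q := UU A)) n b' := by
  have hc : altd ℤ (cface (Q := UU A)) (n + 1) g = 0 := by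
    apply two_smul_inj
    rw [← map_smul, hg, altd_altd _ (fun n i j σ h => cface_cface n i j σ h), smul_zero]
  have h1 := no_two_ord hA hne h (Submodule.Quotient.mk ⟨g, hc⟩) (by
    rw [← Submodule.Quotient.mk_smul, Submodule.Quotient.mk_eq_zero]
    exact ⟨b, hg.symm⟩)
  rw [Submodule.Quotient.mk_eq_zero] at h1
  obtain ⟨b', hb'⟩ := h1
  exact ⟨b', hb'.symm⟩

theorem Up_lt {p q : S} (hp : p ∈ A) (hq : q ∈ A) (h : p < q) : Up A p < Up A q := by
  rw [lt_iff_le_not_ge]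
  refine ⟨Up_mono h.le, fun h2 => ?_⟩
  exact absurd ((Up_le_iff hq).1 h2) h.not_ge

theorem Up_inj {p q : S} (hp : p ∈ A) (hq : q ∈ A) (h : Up A p = Up A q) : p = q :=
  le_antisymm ((Up_le_iff hp).1 h.le) ((Up_le_iff hq).1 h.ge)

open Classical in
/-- inverse of `Up` -/
noncomputable def inv (A : Set S) (C : Set (RR A)) : S :=
  if h : ∃ p ∈ A, Up A p = C then h.choose else ⊥

theorem inv_spec {C : Set (RR A)} (h : C ∈ UU A) : inv A C ∈ A ∧ Up A (inv A C) = C := by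
  have h' : ∃ p ∈ A, Up A p = C := h
  rw [inv, dif_pos h']
  exact h'.choose_spec

theorem inv_Up {p : S} (hp : p ∈ A) : inv A (Up A p) = p := by
  have h := inv_spec (A := A) (C := Up A p) ⟨p, hp, rfl⟩
  exact Up_inj h.1 hp h.2

theorem inv_lt {C D : Set (RR A)} (hC : C ∈ UU A) (hD : D ∈ UU A) (h : C < D) :
    inv A C < inv A D := by
  obtain ⟨h1, h2⟩ := inv_spec hC
  obtain ⟨h3, h4⟩ := inv_spec hD
  rw [lt_iff_le_not_ge]
  constructor
  · rw [← Up_le_iff h1, h2, h4]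
    exact h.le
  · intro h5
    rw [← Up_le_iff h3, h2, h4] at h5
    exact absurd h5 h.not_ge

def upC {n : ℕ} (c : Ch A n) : Ch (UU A) n :=
  ⟨fun i => Up A (c.1 i), fun _ _ hij => Up_lt (c.2.2 _) (c.2.2 _) (c.2.1 hij),
    fun i => ⟨c.1 i, c.2.2 i, rfl⟩⟩

noncomputable def downC {n : ℕ} (c : Ch (UU A) n) : Ch A n :=
  ⟨fun i => inv A (c.1 i), fun _ _ hij => inv_lt (c.2.2 _) (c.2.2 _) (c.2.1 hij),
    fun i => (inv_spec (c.2.2 i)).1⟩

theorem down_up {n : ℕ} (c : Ch A n) : downC (upC c) = c := by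
  apply Subtype.ext
  funext i
  exact inv_Up (c.2.2 i)

/-- If the cohomology of the realization has no `2`-torsion, neither has that of the complex of
chains. -/
theorem no_two_chains
    (hA : ∀ M : Set S, M ⊆ A → M.Nonempty → (∃ p ∈ A, ∀ m ∈ M, m ≤ p) → sSup M ∈ A)
    (hne : A.Nonempty) {n : ℕ} (h : NT (RR A) n) (g : Ch A (n + 1) → ℤ)
    (b : Ch A n → ℤ) (hg : (2 : ℤ) • g = altd ℤ (cface (Q := A)) n b) :
    ∃ b' : Ch A n → ℤ, g = altd ℤ (cface (Q := A)) n b' := by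
  obtain ⟨b', hb'⟩ := no_two_UU hA hne h (fun c => g (downC c)) (fun c => b (downC c)) (by
    funext c
    exact congrFun hg (downC c))
  refine ⟨fun c => b' (upC c), ?_⟩
  funext c
  have := congrFun hb' (upC c)
  rw [down_up] at this
  exact this

end Real

end Pool.Agent.Helper663.Sc
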