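import Pool.Agent.Helper663.Sc.MV

/-! The cohomology of a wedge of spheres has no `2`-torsion. -/

namespace Pool.Agent.Helper663.Sc

section Vec

variable {d : ℕ}

/-- square of the norm -/
def sq (v : Fin (d + 1) → ℝ) : ℝ := ∑ j, v j ^ 2

/-- normalization -/
noncomputable def nz (v : Fin (d + 1) → ℝ) : Fin (d + 1) → ℝ := fun l => v l / √(sq v)

/-- basis vectors (zero if the index is too big) -/
def ee (d m : ℕ) : Fin (d + 1) → ℝ := fun l => if l.val = m then 1 else 0

/-- coordinate -/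
def cc (m : ℕ) (v : Fin (d + 1) → ℝ) : ℝ := ∑ l, v l * ee d m l

theorem cc_eq {m : ℕ} (h : m < d + 1) (v : Fin (d + 1) → ℝ) : cc m v = v ⟨m, h⟩ := by
  rw [cc, Finset.sum_eq_single ⟨m, h⟩]
  · simp [ee]
  · intro l _ hl
    have : l.val ≠ m := fun hh => hl (Fin.ext hh)
    simp [ee, this]
  · simp

theorem cc_zero_eq (v : Fin (d + 1) → ℝ) : cc 0 v = v 0 := cc_eq (Nat.succ_pos d) v

theorem cc_big {m : ℕ} (h : d + 1 ≤ m) (v : Fin (d + 1) → ℝ) : cc m v = 0 := by
  rw [cc]
  apply Finset.sum_eq_zero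
  intro l _
  have : l.val ≠ m := by have := l.2; omega
  simp [ee, this]

theorem ee_zero : ee d 0 = Pi.single 0 1 := by
  funext l
  rw [ee, Pi.single_apply]
  have : (l.val = 0) ↔ l = 0 := by
    rw [Fin.ext_iff]; simp
  simp only [this]

theorem sq_ee {m : ℕ} (h : m < d + 1) : sq (ee d m) = 1 := by
  rw [sq, Finset.sum_eq_single ⟨m, h⟩]
  · simp [ee]
  · intro l _ hl
    have : l.val ≠ m := fun hh => hl (Fin.ext hh)
    simp [ee, this]
  · simp

theorem sq_comb {m : ℕ} (h : m < d + 1) (a b : ℝ) (v : Fin (d + 1) → ℝ) :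
    sq (fun l => a * v l + b * ee d m l) = a ^ 2 * sq v + 2 * a * b * cc m v + b ^ 2 := by
  have h1 : ∀ l, (a * v l + b * ee d m l) ^ 2 =
      a ^ 2 * v l ^ 2 + 2 * a * b * (v l * ee d m l) + b ^ 2 * ee d m l ^ 2 := by
    intro l; ring
  have h2 : sq (fun l => a * v l + b * ee d m l) = ∑ l, (a * v l + b * ee d m l) ^ 2 := rfl
  rw [h2]
  simp only [h1]
  rw [Finset.sum_add_distrib, Finset.sum_add_distrib, ← Finset.mul_sum, ← Finset.mul_sum,
    ← Finset.mul_sum]
  have h3 : ∑ l, ee d m l ^ 2 = 1 := sq_ee h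
  rw [h3, mul_one]
  rfl

theorem cc_comb {m : ℕ} (h : m < d + 1) (a b : ℝ) (v : Fin (d + 1) → ℝ) :
    cc m (fun l => a * v l + b * ee d m l) = a * cc m v + b := by
  rw [cc_eq h, cc_eq h]
  simp [ee]

theorem sq_nonneg' (v : Fin (d + 1) → ℝ) : 0 ≤ sq v :=
  Finset.sum_nonneg fun _ _ => sq_nonneg _

theorem sq_nz {v : Fin (d + 1) → ℝ} (h : 0 < sq v) : sq (nz v) = 1 := by
  have h1 : sq (nz v) = ∑ l, (v l / √(sq v)) ^ 2 := rfl
  rw [h1]
  simp only [div_pow]
  rw [← Finset.sum_div, Real.sq_sqrt h.le]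
  exact div_self h.ne'

theorem nz_of_sq {v : Fin (d + 1) → ℝ} (h : sq v = 1) : nz v = v := by
  funext l
  rw [nz, h, Real.sqrt_one, div_one]

theorem cc_nz (m : ℕ) (v : Fin (d + 1) → ℝ) : cc m (nz v) = cc m v / √(sq v) := by
  rw [cc, cc, Finset.sum_div]
  refine Finset.sum_congr rfl fun l _ => ?_
  rw [nz]; ring

/-- the coordinate of a vector is bounded by the norm -/
theorem cc_sq_le (m : ℕ) (v : Fin (d + 1) → ℝ) : cc m v ^ 2 ≤ sq v := by
  by_cases h : m < d + 1
  · rw [cc_eq h]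
    exact Finset.single_le_sum (f := fun j => v j ^ 2) (fun _ _ => sq_nonneg _) (Finset.mem_univ _)
  · rw [cc_big (by omega)]
    have := sq_nonneg' v
    simpa using this

theorem nz_zero_of_zero {v : Fin (d + 1) → ℝ} {l : Fin (d + 1)} (h : v l = 0) : nz v l = 0 := by
  rw [nz, h, zero_div]

theorem eq_ee_zero {v : Fin (d + 1) → ℝ} (h : sq v = 1) (h0 : v 0 = 1) : v = Pi.single 0 1 := by
  funext l
  refine Fin.cases ?_ (fun l => ?_) l
  · simp [h0]
  · rw [sq, Fin.sum_univ_succ, h0] at h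
    have h1 : ∑ i : Fin d, v i.succ ^ 2 = 0 := by linarith
    have h2 := (Finset.sum_eq_zero_iff_of_nonneg (fun i _ => sq_nonneg (v (Fin.succ i)))).mp h1 l
      (Finset.mem_univ _)
    have h3 : v l.succ = 0 := by
      exact pow_eq_zero_iff (two_ne_zero) |>.mp h2
    rw [h3]
    simp

theorem sq_single : sq (Pi.single 0 1 : Fin (d + 1) → ℝ) = 1 := by
  rw [← ee_zero]
  exact sq_ee (Nat.succ_pos d)

/-- the basic estimate for contractions -/
theorem contract_aux {c t p s : ℝ} (hc : -1 < c) (hc1 : c ^ 2 ≤ 1) (ht0 : 0 ≤ t) (ht1 : t ≤ 1)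
    (hp : p = (1 - t) * c + t) (hs : s = (1 - t) ^ 2 + 2 * (1 - t) * t * c + t ^ 2) :
    0 < s ∧ -1 < p / √s := by
  have hs0 : 0 < s := by
    rw [hs]
    rcases eq_or_lt_of_le ht0 with h | h
    · rw [← h]; norm_num
    · rcases eq_or_lt_of_le ht1 with h' | h'
      · rw [h']; norm_num
      · have h3 : 0 < (1 - t) * t * (1 + c) := by
          apply mul_pos (mul_pos (by linarith) h) (by linarith)
        nlinarith [sq_nonneg (1 - 2 * t)]
  refine ⟨hs0, ?_⟩
  have hr : 0 < √s := Real.sqrt_pos.mpr hs0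
  rw [lt_div_iff₀ hr]
  by_cases hp0 : 0 ≤ p
  · linarith
  · push Not at hp0
    have h1 : p ^ 2 < s := by
      have ht : t < 1 := by
        rcases eq_or_lt_of_le ht1 with h | h
        · rw [hp, h] at hp0; norm_num at hp0
        · exact h
      have hc0 : c < 0 := by
        by_contra hcc
        push Not at hcc
        have : 0 ≤ (1 - t) * c := mul_nonneg (by linarith) hcc
        linarith
      have h2 : 0 < (1 - t) ^ 2 * (1 - c ^ 2) := by
        apply mul_pos
        · have : 0 < 1 - t := by linarith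
          positivity
        · nlinarith
      rw [hp, hs]
      nlinarith
    have h2 : |p| < √s := by
      rw [← Real.sqrt_sq_eq_abs]
      exact Real.sqrt_lt_sqrt (sq_nonneg _) h1
    have h3 := neg_abs_le p
    linarith

end Vec

section Cont

variable {X : Type*} [TopologicalSpace X] {d : ℕ}

theorem continuous_sq {f : X → Fin (d + 1) → ℝ} (hf : Continuous f) :
    Continuous fun x => sq (f x) := by
  unfold sq
  apply continuous_finsetSum
  intro j _
  exact ((continuous_apply j).comp hf).pow 2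

theorem continuous_nz {f : X → Fin (d + 1) → ℝ} (hf : Continuous f) (h : ∀ x, 0 < sq (f x)) :
    Continuous fun x => nz (f x) := by
  apply continuous_pi
  intro l
  exact ((continuous_apply l).comp hf).div (continuous_sq hf).sqrt
    (fun x => (Real.sqrt_pos.mpr (h x)).ne')

theorem continuous_cc (m : ℕ) : Continuous fun v : Fin (d + 1) → ℝ => cc m v := by
  unfold cc
  apply continuous_finsetSum
  intro j _
  exact (continuous_apply j).mul continuous_const

theorem const_of_finite {Y : Type*} [TopologicalSpace Y] [T1Space Y] (g : X → Y)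
    (hg : Continuous g) (s : Set Y) (hs : s.Finite) (h : ∀ x, g x ∈ s) {n : ℕ} (σ : Sing X n)
    (t t' : Dl n) : g (σ t) = g (σ t') := by
  have h1 : IsPreconnected (Set.range fun t => g (σ t)) := by
    rw [← Set.image_univ]
    apply IsPreconnected.image
    · have h2 : IsPreconnected (stdSimplex ℝ (Fin (n + 1))) :=
        (convex_stdSimplex ℝ _).isPreconnected
      have h3 := isPreconnected_iff_preconnectedSpace.mp h2
      exact isPreconnected_univ
    · exact (hg.comp σ.continuous).continuousOn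
  by_contra hne
  have h2 : (Set.range fun t => g (σ t)).Nontrivial :=
    ⟨_, ⟨t, rfl⟩, _, ⟨t', rfl⟩, hne⟩
  apply h1.infinite_of_nontrivial h2
  apply hs.subset
  rintro _ ⟨t, rfl⟩
  exact h _

end Cont

section Spaces

variable {k : ℕ} (d : Fin k → ℕ)

/-- the ambient space -/
abbrev Amb : Type := (i : Fin k) → Fin (d i + 1) → ℝ

/-- the wedge of spheres -/
def Wd : Set (Amb d) :=
  {y : (i : Fin k) → Fin (d i + 1) → ℝ | (∀ i, ∑ j, y i j ^ 2 = 1) ∧
    ∀ i i', i ≠ i' → y i = Pi.single 0 1 ∨ y i' = Pi.single 0 1}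

/-- the subspaces used in the induction -/
def Ym (m : ℕ) : Set (Amb d) :=
  {y | y ∈ Wd d ∧ (∃ i, y i 0 ≠ 1) ∧ ∀ i, y i 0 ≠ 1 → ∀ l : Fin (d i + 1), l.val < m → y i l = 0}

/-- half spaces -/
def Zm (m : ℕ) (ε : ℝ) : Set (Amb d) :=
  {y | y ∈ Ym d m ∧ ∀ i, y i 0 ≠ 1 → -1 < ε * cc m (y i)}

/-- neighbourhood of the equator -/
def Em (m : ℕ) : Set (Amb d) :=
  {y | y ∈ Ym d m ∧ ∀ i, y i 0 ≠ 1 → -1 < cc m (y i) ∧ cc m (y i) < 1}

variable {d}

theorem Wd_sq {y : Amb d} (h : y ∈ Wd d) (i : Fin k) : sq (y i) = 1 := h.1 i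

theorem Wd_eq {y : Amb d} (h : y ∈ Wd d) {i : Fin k} (hi : y i 0 = 1) : y i = Pi.single 0 1 :=
  eq_ee_zero (Wd_sq h i) hi

theorem single_zero_zero {e : ℕ} : (Pi.single 0 1 : Fin (e + 1) → ℝ) 0 = 1 := by simp

theorem Wd_unique {y : Amb d} (h : y ∈ Wd d) {i i' : Fin k} (hi : y i 0 ≠ 1) (hi' : y i' 0 ≠ 1) :
    i = i' := by
  by_contra hne
  rcases h.2 i i' hne with h1 | h1
  · exact hi (by rw [h1]; exact single_zero_zero)
  · exact hi' (by rw [h1]; exact single_zero_zero)

theorem Wd_le {y : Amb d} (h : y ∈ Wd d) (i : Fin k) : y i 0 ≤ 1 := by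
  have h1 := cc_sq_le 0 (y i)
  rw [Wd_sq h i, cc_zero_eq] at h1
  nlinarith [sq_nonneg (y i 0 - 1)]

/-- indicator of the active index -/
noncomputable def chi (y : Amb d) (i : Fin k) : ℝ := (1 - y i 0) / ∑ i', (1 - y i' 0)

theorem chi_inactive {y : Amb d} {i : Fin k} (h : y i 0 = 1) : chi y i = 0 := by
  rw [chi, h, sub_self, zero_div]

theorem chi_sum {y : Amb d} (h : y ∈ Wd d) {i : Fin k} (hi : y i 0 ≠ 1) :
    ∑ i', (1 - y i' 0) = 1 - y i 0 := by
  apply Finset.sum_eq_single i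
  · intro j _ hj
    by_contra hne
    exact hj (Wd_unique h (fun h1 => hne (by rw [h1, sub_self])) hi)
  · simp

theorem chi_active {y : Amb d} (h : y ∈ Wd d) {i : Fin k} (hi : y i 0 ≠ 1) : chi y i = 1 := by
  rw [chi, chi_sum h hi]
  exact div_self (sub_ne_zero.mpr (Ne.symm hi))

theorem chi_den {y : Amb d} (h : y ∈ Wd d) (ha : ∃ i, y i 0 ≠ 1) :
    ∑ i', (1 - y i' 0) ≠ 0 := by
  obtain ⟨i, hi⟩ := ha
  rw [chi_sum h hi]
  exact sub_ne_zero.mpr (Ne.symm hi)

theorem continuous_chi {X : Type*} [TopologicalSpace X] {f : X → Amb d} (hf : Continuous f)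
    (hW : ∀ x, f x ∈ Wd d) (ha : ∀ x, ∃ i, f x i 0 ≠ 1) (i : Fin k) :
    Continuous fun x => chi (f x) i := by
  have hc : ∀ (i : Fin k) (l : Fin (d i + 1)), Continuous fun x => f x i l := fun i l =>
    (continuous_apply l).comp ((continuous_apply i).comp hf)
  unfold chi
  apply Continuous.div
  · exact continuous_const.sub (hc i 0)
  · apply continuous_finsetSum
    intro j _
    exact continuous_const.sub (hc j 0)
  · intro x
    exact chi_den (hW x) (ha x)

/-- a modification of the active component stays in the wedge -/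
theorem mem_of_modify {y y' : Amb d} (h : y ∈ Wd d) (h0 : ∀ i, y i 0 = 1 → y' i = y i)
    (h1 : ∀ i, y i 0 ≠ 1 → sq (y' i) = 1) : y' ∈ Wd d := by
  refine ⟨fun i => ?_, fun i i' hi => ?_⟩
  · by_cases hi : y i 0 = 1
    · rw [h0 i hi]; exact h.1 i
    · exact h1 i hi
  · by_cases hi0 : y i 0 = 1
    · left; rw [h0 i hi0]; exact Wd_eq h hi0
    · by_cases hi1 : y i' 0 = 1
      · right; rw [h0 i' hi1]; exact Wd_eq h hi1
      · exact absurd (Wd_unique h hi0 hi1) hi

theorem mem_Ym_of_modify {m m' : ℕ} {y y' : Amb d} (h : y ∈ Ym d m)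
    (h0 : ∀ i, y i 0 = 1 → y' i = y i)
    (h1 : ∀ i, y i 0 ≠ 1 → sq (y' i) = 1) (h2 : ∀ i, y i 0 ≠ 1 → y' i 0 ≠ 1)
    (h3 : ∀ i, y i 0 ≠ 1 → ∀ l : Fin (d i + 1), l.val < m' → y' i l = 0) : y' ∈ Ym d m' := by
  obtain ⟨hW, ⟨i, hi⟩, _⟩ := h
  refine ⟨mem_of_modify hW h0 h1, ⟨i, h2 i hi⟩, ?_⟩
  intro j hj
  apply h3 j
  intro hj'
  rw [h0 j hj'] at hj
  exact hj hj'

/-- the index is small -/
theorem lt_of_Ym {m : ℕ} {y : Amb d} (h : y ∈ Ym d m) {i : Fin k} (hi : y i 0 ≠ 1) :
    m < d i + 1 := by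
  by_contra hm
  have h1 : sq (y i) = 0 := by
    apply Finset.sum_eq_zero
    intro l _
    rw [h.2.2 i hi l (by have := l.2; omega)]
    norm_num
  rw [Wd_sq h.1 i] at h1
  exact one_ne_zero h1

/-- the contraction of the half spaces -/
noncomputable def contr (m : ℕ) (ε : ℝ) (y : Amb d) (t : ℝ) : Amb d := fun i =>
  nz (fun l => (1 - t * chi y i) * y i l + (t * chi y i * ε) * ee (d i) m l)

theorem contr_inactive (m : ℕ) (ε : ℝ) {y : Amb d} (h : y ∈ Wd d) (t : ℝ) {i : Fin k}
    (hi : y i 0 = 1) : contr m ε y t i = y i := by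
  rw [contr, chi_inactive hi]
  simp only [mul_zero, sub_zero, one_mul, zero_mul, add_zero]
  exact nz_of_sq (Wd_sq h i)

theorem contr_active (m : ℕ) (ε : ℝ) {y : Amb d} (h : y ∈ Wd d) (t : ℝ) {i : Fin k}
    (hi : y i 0 ≠ 1) : contr m ε y t i =
      nz (fun l => (1 - t) * y i l + (t * ε) * ee (d i) m l) := by
  rw [contr, chi_active h hi]
  simp only [mul_one]

theorem contr_spec {m : ℕ} {ε : ℝ} (hε : ε ^ 2 = 1) {y : Amb d} (h : y ∈ Zm d m ε) {t : ℝ}
    (ht0 : 0 ≤ t) (ht1 : t ≤ 1) {i : Fin k} (hi : y i 0 ≠ 1) :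
    0 < sq (fun l => (1 - t) * y i l + (t * ε) * ee (d i) m l) ∧
    -1 < ε * cc m (contr m ε y t i) := by
  have hm := lt_of_Ym h.1 hi
  have hW := h.1.1
  have h1 := cc_sq_le m (y i)
  rw [Wd_sq hW i] at h1
  have h2 : sq (fun l => (1 - t) * y i l + (t * ε) * ee (d i) m l) =
      (1 - t) ^ 2 + 2 * (1 - t) * t * (ε * cc m (y i)) + t ^ 2 := by
    rw [sq_comb hm, Wd_sq hW i, mul_pow, hε]
    ring
  have h3 := contract_aux (c := ε * cc m (y i)) (t := t) (p := (1 - t) * (ε * cc m (y i)) + t)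
    (h.2 i hi) (by rw [mul_pow, hε, one_mul]; exact h1) ht0 ht1 rfl h2
  refine ⟨h3.1, ?_⟩
  rw [contr_active m ε hW t hi, cc_nz, cc_comb hm]
  have h4 : ε * (((1 - t) * cc m (y i) + t * ε) /
      √(sq (fun l => (1 - t) * y i l + (t * ε) * ee (d i) m l))) =
      ((1 - t) * (ε * cc m (y i)) + t) /
      √(sq (fun l => (1 - t) * y i l + (t * ε) * ee (d i) m l)) := by
    rw [← mul_div_assoc]
    congr 1
    have : ε * (t * ε) = t := by
      have : ε * (t * ε) = t * ε ^ 2 := by ring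
      rw [this, hε, mul_one]
    rw [mul_add, this]
    ring
  rw [h4]
  exact h3.2

theorem contr_pos {m : ℕ} {ε : ℝ} (hε : ε ^ 2 = 1) {y : Amb d} (h : y ∈ Zm d m ε) {t : ℝ}
    (ht0 : 0 ≤ t) (ht1 : t ≤ 1) (i : Fin k) :
    0 < sq (fun l => (1 - t * chi y i) * y i l + (t * chi y i * ε) * ee (d i) m l) := by
  by_cases hi : y i 0 = 1
  · rw [chi_inactive hi]
    simp only [mul_zero, sub_zero, one_mul, zero_mul, add_zero]
    have : sq (fun l => y i l) = 1 := Wd_sq h.1.1 i
    rw [this]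
    exact one_pos
  · rw [chi_active h.1.1 hi]
    simp only [mul_one]
    exact (contr_spec hε h ht0 ht1 hi).1

theorem ee_val_ne {e m : ℕ} {l : Fin (e + 1)} (h : l.val ≠ m) : ee e m l = 0 := if_neg h

theorem contr_mem {m : ℕ} {ε : ℝ} (hε : ε = 1 ∨ ε = -1) (hm : 1 ≤ m ∨ ε = -1) {y : Amb d}
    (h : y ∈ Zm d m ε) {t : ℝ} (ht0 : 0 ≤ t) (ht1 : t ≤ 1) : contr m ε y t ∈ Zm d m ε := by
  have hε2 : ε ^ 2 = 1 := by rcases hε with rfl | rfl <;> norm_num
  have hW := h.1.1
  have hin : ∀ i, y i 0 = 1 → contr m ε y t i = y i := fun i hi =>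
    contr_inactive m ε hW t hi
  have key : ∀ i, y i 0 ≠ 1 → -1 < ε * cc m (contr m ε y t i) := fun i hi =>
    (contr_spec hε2 h ht0 ht1 hi).2
  refine ⟨mem_Ym_of_modify h.1 hin ?_ ?_ ?_, ?_⟩
  · intro i hi
    rw [contr_active m ε hW t hi]
    exact sq_nz (contr_spec hε2 h ht0 ht1 hi).1
  · intro i hi
    rcases Nat.eq_zero_or_pos m with hm0 | hm0
    · subst hm0
      have he : ε = -1 := by
        rcases hm with h' | h'
        · omega
        · exact h'
      have h1 := key i hi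
      rw [cc_zero_eq] at h1
      intro h2
      rw [h2, he] at h1
      norm_num at h1
    · rw [contr_active m ε hW t hi]
      have h1 : y i 0 = 0 := h.1.2.2 i hi 0 hm0
      have h2 : nz (fun l => (1 - t) * y i l + (t * ε) * ee (d i) m l) 0 = 0 := by
        apply nz_zero_of_zero
        rw [h1, ee_val_ne (l := (0 : Fin (d i + 1))) (m := m) (by simp; omega)]
        ring
      rw [h2]
      norm_num
  · intro i hi l hl
    rw [contr_active m ε hW t hi]
    apply nz_zero_of_zero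
    rw [h.1.2.2 i hi l hl, ee_val_ne (by omega)]
    ring
  · intro i hi
    apply key i
    intro hi'
    rw [hin i hi'] at hi
    exact hi hi'

theorem continuous_contr {X : Type*} [TopologicalSpace X] (m : ℕ) (ε : ℝ) (hε : ε ^ 2 = 1)
    {f : X → Amb d} {τ : X → ℝ}
    (hf : Continuous f) (hτ : Continuous τ) (hZ : ∀ x, f x ∈ Zm d m ε) (h0 : ∀ x, 0 ≤ τ x)
    (h1 : ∀ x, τ x ≤ 1) : Continuous fun x => contr m ε (f x) (τ x) := by
  apply continuous_pi
  intro i
  have hchi := continuous_chi hf (fun x => (hZ x).1.1) (fun x => (hZ x).1.2.1) i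
  apply continuous_nz
  · apply continuous_pi
    intro l
    have hc : Continuous fun x => f x i l := (continuous_apply l).comp ((continuous_apply i).comp hf)
    exact ((continuous_const.sub (hτ.mul hchi)).mul hc).add
      (((hτ.mul hchi).mul continuous_const).mul continuous_const)
  · intro x
    exact contr_pos hε (hZ x) (h0 x) (h1 x) i

theorem AC_Zm (m : ℕ) (ε : ℝ) (hε : ε = 1 ∨ ε = -1) (hm : 1 ≤ m ∨ ε = -1) :
    AC (Zm d m ε) := by
  have hε2 : ε ^ 2 = 1 := by rcases hε with rfl | rfl <;> norm_num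
  let H : C((Zm d m ε) × unitInterval, Zm d m ε) :=
    ⟨fun p => ⟨contr m ε p.1.1 p.2.1, contr_mem hε hm p.1.2 p.2.2.1 p.2.2.2⟩, by
      apply Continuous.subtype_mk
      exact continuous_contr m ε hε2 (continuous_subtype_val.comp continuous_fst)
        (continuous_subtype_val.comp continuous_snd) (fun p => p.1.2) (fun p => p.2.2.1)
        (fun p => p.2.2.2)⟩
  apply AC_of_const H
  · apply ContinuousMap.ext
    intro y
    apply Subtype.ext
    change contr m ε y.1 0 = y.1
    funext i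
    by_cases hi : y.1 i 0 = 1
    · exact contr_inactive m ε y.2.1.1 _ hi
    · rw [contr_active m ε y.2.1.1 _ hi]
      simp only [sub_zero, one_mul, zero_mul, add_zero]
      exact nz_of_sq (Wd_sq y.2.1.1 i)
  · intro n σ t
    apply Subtype.ext
    refine const_of_finite (fun z => (slice H 1 z).1)
      (continuous_subtype_val.comp (slice H 1).continuous)
      (Set.range fun i0 : Fin k => (fun i => if i = i0 then nz (fun l => ε * ee (d i) m l)
        else Pi.single 0 1 : Amb d)) (Set.finite_range _) ?_ σ t _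
    intro y
    obtain ⟨i0, hi0⟩ := y.2.1.2.1
    refine ⟨i0, ?_⟩
    funext i
    change (if i = i0 then nz (fun l => ε * ee (d i) m l) else Pi.single 0 1) = contr m ε y.1 1 i
    by_cases hi : y.1 i 0 = 1
    · rw [contr_inactive m ε y.2.1.1 _ hi, if_neg]
      · exact (Wd_eq y.2.1.1 hi).symm
      · rintro rfl
        exact hi0 hi
    · rw [contr_active m ε y.2.1.1 _ hi, if_pos (Wd_unique y.2.1.1 hi hi0)]
      simp only [sub_self, zero_mul, zero_add, one_mul]

/-- the retraction to the equator -/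
noncomputable def equ (m : ℕ) (y : Amb d) (t : ℝ) : Amb d := fun i =>
  nz (fun l => 1 * y i l + (-(t * chi y i * cc m (y i))) * ee (d i) m l)

theorem equ_inactive (m : ℕ) {y : Amb d} (h : y ∈ Wd d) (t : ℝ) {i : Fin k}
    (hi : y i 0 = 1) : equ m y t i = y i := by
  rw [equ, chi_inactive hi]
  simp only [mul_zero, one_mul, zero_mul, neg_zero, add_zero]
  exact nz_of_sq (Wd_sq h i)

theorem equ_active (m : ℕ) {y : Amb d} (h : y ∈ Wd d) (t : ℝ) {i : Fin k}
    (hi : y i 0 ≠ 1) : equ m y t i =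
      nz (fun l => 1 * y i l + (-(t * cc m (y i))) * ee (d i) m l) := by
  rw [equ, chi_active h hi]
  simp only [mul_one]

theorem equ_spec {m : ℕ} {y : Amb d} (h : y ∈ Em d m) {t : ℝ}
    (ht0 : 0 ≤ t) (ht1 : t ≤ 1) {i : Fin k} (hi : y i 0 ≠ 1) :
    0 < sq (fun l => 1 * y i l + (-(t * cc m (y i))) * ee (d i) m l) ∧
    -1 < cc m (equ m y t i) ∧ cc m (equ m y t i) < 1 ∧ (t = 1 → cc m (equ m y t i) = 0) := by
  have hm := lt_of_Ym h.1 hi
  have hW := h.1.1
  obtain ⟨hc1, hc2⟩ := h.2 i hi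
  have h0 : cc m (y i) ^ 2 < 1 := by nlinarith
  have h2 : sq (fun l => 1 * y i l + (-(t * cc m (y i))) * ee (d i) m l) =
      1 - 2 * t * cc m (y i) ^ 2 + t ^ 2 * cc m (y i) ^ 2 := by
    rw [sq_comb hm, Wd_sq hW i]
    ring
  have hs : ((1 - t) * cc m (y i)) ^ 2 <
      sq (fun l => 1 * y i l + (-(t * cc m (y i))) * ee (d i) m l) := by
    rw [h2]
    nlinarith
  have hpos : 0 < sq (fun l => 1 * y i l + (-(t * cc m (y i))) * ee (d i) m l) :=
    lt_of_le_of_lt (sq_nonneg _) hs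
  have hr := Real.sqrt_pos.mpr hpos
  have e1 : cc m (equ m y t i) = ((1 - t) * cc m (y i)) /
      √(sq (fun l => 1 * y i l + (-(t * cc m (y i))) * ee (d i) m l)) := by
    rw [equ_active m hW t hi, cc_nz, cc_comb hm]
    congr 1
    ring
  have h3 : |(1 - t) * cc m (y i)| <
      √(sq (fun l => 1 * y i l + (-(t * cc m (y i))) * ee (d i) m l)) := by
    rw [← Real.sqrt_sq_eq_abs]
    exact Real.sqrt_lt_sqrt (sq_nonneg _) hs
  rw [abs_lt] at h3
  refine ⟨hpos, ?_, ?_, ?_⟩
  · rw [e1, lt_div_iff₀ hr]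
    linarith [h3.1]
  · rw [e1, div_lt_iff₀ hr]
    linarith [h3.2]
  · rintro rfl
    rw [e1]
    simp

theorem equ_pos {m : ℕ} {y : Amb d} (h : y ∈ Em d m) {t : ℝ}
    (ht0 : 0 ≤ t) (ht1 : t ≤ 1) (i : Fin k) :
    0 < sq (fun l => 1 * y i l + (-(t * chi y i * cc m (y i))) * ee (d i) m l) := by
  by_cases hi : y i 0 = 1
  · rw [chi_inactive hi]
    simp only [mul_zero, one_mul, zero_mul, neg_zero, add_zero]
    have : sq (fun l => y i l) = 1 := Wd_sq h.1.1 i
    rw [this]
    exact one_pos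
  · rw [chi_active h.1.1 hi]
    simp only [mul_one]
    exact (equ_spec h ht0 ht1 hi).1

theorem equ_ne {m : ℕ} {y : Amb d} (h : y ∈ Em d m) {t : ℝ}
    (ht0 : 0 ≤ t) (ht1 : t ≤ 1) {i : Fin k} (hi : y i 0 ≠ 1) : equ m y t i 0 ≠ 1 := by
  rcases Nat.eq_zero_or_pos m with hm0 | hm0
  · subst hm0
    have h1 := (equ_spec h ht0 ht1 hi).2.2.1
    rw [cc_zero_eq] at h1
    exact h1.ne
  · rw [equ_active m h.1.1 t hi]
    have h1 : y i 0 = 0 := h.1.2.2 i hi 0 hm0
    have h2 : nz (fun l => 1 * y i l + (-(t * cc m (y i))) * ee (d i) m l) 0 = 0 := by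
      apply nz_zero_of_zero
      rw [h1, ee_val_ne (l := (0 : Fin (d i + 1))) (m := m) (by simp; omega)]
      ring
    rw [h2]
    norm_num

theorem equ_low {m : ℕ} {y : Amb d} (h : y ∈ Em d m) (t : ℝ) {i : Fin k} (hi : y i 0 ≠ 1)
    (l : Fin (d i + 1)) (hl : l.val < m) : equ m y t i l = 0 := by
  rw [equ_active m h.1.1 t hi]
  apply nz_zero_of_zero
  rw [h.1.2.2 i hi l hl, ee_val_ne (by omega)]
  ring

theorem equ_mem {m : ℕ} {y : Amb d} (h : y ∈ Em d m) {t : ℝ} (ht0 : 0 ≤ t) (ht1 : t ≤ 1) :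
    equ m y t ∈ Em d m := by
  have hW := h.1.1
  have hin : ∀ i, y i 0 = 1 → equ m y t i = y i := fun i hi => equ_inactive m hW t hi
  refine ⟨mem_Ym_of_modify h.1 hin ?_ ?_ ?_, ?_⟩
  · intro i hi
    rw [equ_active m hW t hi]
    exact sq_nz (equ_spec h ht0 ht1 hi).1
  · intro i hi
    exact equ_ne h ht0 ht1 hi
  · intro i hi l hl
    exact equ_low h t hi l hl
  · intro i hi
    have hi2 : y i 0 ≠ 1 := by
      intro hi'
      rw [hin i hi'] at hi
      exact hi hi'
    have := equ_spec h ht0 ht1 hi2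
    exact ⟨this.2.1, this.2.2.1⟩

theorem equ_one_mem {m : ℕ} {y : Amb d} (h : y ∈ Em d m) : equ m y 1 ∈ Ym d (m + 1) := by
  have hW := h.1.1
  have hin : ∀ i, y i 0 = 1 → equ m y 1 i = y i := fun i hi => equ_inactive m hW 1 hi
  refine mem_Ym_of_modify h.1 hin ?_ ?_ ?_
  · intro i hi
    rw [equ_active m hW 1 hi]
    exact sq_nz (equ_spec h zero_le_one le_rfl hi).1
  · intro i hi
    exact equ_ne h zero_le_one le_rfl hi
  · intro i hi l hl
    rcases Nat.lt_succ_iff_lt_or_eq.mp hl with h1 | h1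
    · exact equ_low h 1 hi l h1
    · have h2 := (equ_spec h zero_le_one le_rfl hi).2.2.2 rfl
      have hm := lt_of_Ym h.1 hi
      rw [cc_eq hm] at h2
      have : l = ⟨m, hm⟩ := Fin.ext h1
      rw [this]
      exact h2

theorem Ym_succ_mem {m : ℕ} {y : Amb d} (h : y ∈ Ym d (m + 1)) : y ∈ Em d m := by
  refine ⟨⟨h.1, h.2.1, fun i hi l hl => h.2.2 i hi l (by omega)⟩, ?_⟩
  intro i hi
  have hm := lt_of_Ym h hi
  have : cc m (y i) = 0 := by
    rw [cc_eq (by omega)]
    exact h.2.2 i hi _ (by simp)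
  rw [this]
  norm_num

theorem continuous_equ {X : Type*} [TopologicalSpace X] (m : ℕ)
    {f : X → Amb d} {τ : X → ℝ}
    (hf : Continuous f) (hτ : Continuous τ) (hZ : ∀ x, f x ∈ Em d m) (h0 : ∀ x, 0 ≤ τ x)
    (h1 : ∀ x, τ x ≤ 1) : Continuous fun x => equ m (f x) (τ x) := by
  apply continuous_pi
  intro i
  have hchi := continuous_chi hf (fun x => (hZ x).1.1) (fun x => (hZ x).1.2.1) i
  have hfi : Continuous fun x => f x i := (continuous_apply i).comp hf
  have hcc : Continuous fun x => cc m (f x i) := (continuous_cc m).comp hfi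
  apply continuous_nz
  · apply continuous_pi
    intro l
    have hc : Continuous fun x => f x i l := (continuous_apply l).comp hfi
    exact (continuous_const.mul hc).add
      ((((hτ.mul hchi).mul hcc).neg).mul continuous_const)
  · intro x
    exact equ_pos (hZ x) (h0 x) (h1 x) i

theorem NT_Em (m n : ℕ) (h : NT (Ym d (m + 1)) n) : NT (Em d m) n := by
  let H : C((Em d m) × unitInterval, Em d m) :=
    ⟨fun p => ⟨equ m p.1.1 p.2.1, equ_mem p.1.2 p.2.2.1 p.2.2.2⟩, by
      apply Continuous.subtype_mk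
      exact continuous_equ m (continuous_subtype_val.comp continuous_fst)
        (continuous_subtype_val.comp continuous_snd) (fun p => p.1.2) (fun p => p.2.2.1)
        (fun p => p.2.2.2)⟩
  let s : C(Em d m, Ym d (m + 1)) := ⟨fun y => ⟨equ m y.1 1, equ_one_mem y.2⟩, by
    apply Continuous.subtype_mk
    exact continuous_equ m continuous_subtype_val continuous_const (fun p => p.2)
      (fun _ => zero_le_one) (fun _ => le_rfl)⟩
  let r : C(Ym d (m + 1), Em d m) := ⟨fun y => ⟨y.1, Ym_succ_mem y.2⟩,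
    continuous_subtype_val.subtype_mk _⟩
  refine NT_of_retract s r H ?_ rfl n h
  apply ContinuousMap.ext
  intro y
  apply Subtype.ext
  change equ m y.1 0 = y.1
  funext i
  by_cases hi : y.1 i 0 = 1
  · exact equ_inactive m y.2.1.1 _ hi
  · rw [equ_active m y.2.1.1 _ hi]
    simp only [one_mul, zero_mul, neg_zero, add_zero]
    exact nz_of_sq (Wd_sq y.2.1.1 i)

theorem cc_inactive {m : ℕ} (hm : 1 ≤ m) {y : Amb d} (h : y ∈ Wd d) {i : Fin k} (hi : y i 0 = 1) :
    cc m (y i) = 0 := by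
  rw [Wd_eq h hi]
  by_cases hmm : m < d i + 1
  · rw [cc_eq hmm, Pi.single_apply, if_neg]
    intro hh
    rw [Fin.ext_iff] at hh
    simp at hh
    omega
  · exact cc_big (by omega) _

theorem NT_Ym (n : ℕ) : ∀ m, NT (Ym d (m + 1)) n := by
  induction n with
  | zero => intro m; exact NT_zero
  | succ n ih =>
    intro m
    have hcont : ∀ i : Fin k, Continuous fun y : Amb d => cc (m + 1) (y i) := fun i =>
      (continuous_cc (m + 1)).comp (continuous_apply i)
    refine NT_glue' (Ym d (m + 1)) {y | ∀ i, -1 < cc (m + 1) (y i)}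
      {y | ∀ i, cc (m + 1) (y i) < 1} ?_ ?_ ?_ (Zm d (m + 1) 1) (Zm d (m + 1) (-1))
      (Em d (m + 1)) ?_ ?_ ?_ (AC_Zm (m + 1) 1 (Or.inl rfl) (Or.inl (by omega)))
      (AC_Zm (m + 1) (-1) (Or.inr rfl) (Or.inl (by omega))) n (NT_Em (m + 1) n (ih (m + 1)))
    · rw [Set.ofPred_forall]
      exact isOpen_iInter_of_finite fun i => isOpen_lt continuous_const (hcont i)
    · rw [Set.ofPred_forall]
      exact isOpen_iInter_of_finite fun i => isOpen_lt (hcont i) continuous_const
    · intro y hy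
      by_contra hcon
      push Not at hcon
      obtain ⟨h1, h2⟩ := hcon
      simp only [Set.mem_ofPred_eq, not_forall, not_lt] at h1 h2
      obtain ⟨i, hi⟩ := h1
      obtain ⟨j, hj⟩ := h2
      have ai : y i 0 ≠ 1 := fun hh => by
        rw [cc_inactive (by omega) hy.1 hh] at hi
        norm_num at hi
      have aj : y j 0 ≠ 1 := fun hh => by
        rw [cc_inactive (by omega) hy.1 hh] at hj
        norm_num at hj
      have := Wd_unique hy.1 ai aj
      subst this
      linarith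
    · intro y
      constructor
      · rintro ⟨h1, h2⟩
        refine ⟨h1, fun i => ?_⟩
        by_cases hi : y i 0 = 1
        · rw [cc_inactive (by omega) h1.1 hi]; norm_num
        · have := h2 i hi
          rwa [one_mul] at this
      · rintro ⟨h1, h2⟩
        refine ⟨h1, fun i _ => ?_⟩
        rw [one_mul]
        exact h2 i
    · intro y
      constructor
      · rintro ⟨h1, h2⟩
        refine ⟨h1, fun i => ?_⟩
        by_cases hi : y i 0 = 1
        · rw [cc_inactive (by omega) h1.1 hi]; norm_num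
        · have := h2 i hi
          linarith
      · rintro ⟨h1, h2⟩
        refine ⟨h1, fun i _ => ?_⟩
        have := h2 i
        linarith
    · intro y
      constructor
      · rintro ⟨h1, h2⟩
        refine ⟨h1, fun i => ?_, fun i => ?_⟩
        · by_cases hi : y i 0 = 1
          · rw [cc_inactive (by omega) h1.1 hi]; norm_num
          · exact (h2 i hi).1
        · by_cases hi : y i 0 = 1
          · rw [cc_inactive (by omega) h1.1 hi]; norm_num
          · exact (h2 i hi).2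
      · rintro ⟨h1, h2, h3⟩
        exact ⟨h1, fun i _ => ⟨h2 i, h3 i⟩⟩

/-- the neighbourhood of the base point -/
def UW (d : Fin k → ℕ) : Set (Amb d) := {y | y ∈ Wd d ∧ ∀ i, -1 < cc 0 (y i)}

noncomputable def contr0 (y : Amb d) (t : ℝ) : Amb d := fun i =>
  nz (fun l => (1 - t) * y i l + t * ee (d i) 0 l)

theorem contr0_spec {y : Amb d} (h : y ∈ UW d) {t : ℝ} (ht0 : 0 ≤ t) (ht1 : t ≤ 1) (i : Fin k) :
    0 < sq (fun l => (1 - t) * y i l + t * ee (d i) 0 l) ∧ -1 < cc 0 (contr0 y t i) := by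
  have hm : 0 < d i + 1 := Nat.succ_pos _
  have h1 := cc_sq_le 0 (y i)
  rw [Wd_sq h.1 i] at h1
  have h2 : sq (fun l => (1 - t) * y i l + t * ee (d i) 0 l) =
      (1 - t) ^ 2 + 2 * (1 - t) * t * cc 0 (y i) + t ^ 2 := by
    rw [sq_comb hm, Wd_sq h.1 i]
    ring
  have h3 := contract_aux (h.2 i) h1 ht0 ht1 rfl h2
  refine ⟨h3.1, ?_⟩
  rw [contr0, cc_nz, cc_comb hm]
  exact h3.2

theorem contr0_mem {y : Amb d} (h : y ∈ UW d) {t : ℝ} (ht0 : 0 ≤ t) (ht1 : t ≤ 1) :
    contr0 y t ∈ UW d := by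
  refine ⟨mem_of_modify h.1 ?_ ?_, fun i => (contr0_spec h ht0 ht1 i).2⟩
  · intro i hi
    have e := Wd_eq h.1 hi
    rw [contr0, e, ee_zero]
    have : (fun l => (1 - t) * (Pi.single 0 1 : Fin (d i + 1) → ℝ) l +
        t * (Pi.single 0 1 : Fin (d i + 1) → ℝ) l) = Pi.single 0 1 := by
      funext l
      ring
    rw [this]
    exact nz_of_sq sq_single
  · intro i _
    exact sq_nz (contr0_spec h ht0 ht1 i).1

theorem continuous_contr0 {X : Type*} [TopologicalSpace X]
    {f : X → Amb d} {τ : X → ℝ}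
    (hf : Continuous f) (hτ : Continuous τ) (hZ : ∀ x, f x ∈ UW d) (h0 : ∀ x, 0 ≤ τ x)
    (h1 : ∀ x, τ x ≤ 1) : Continuous fun x => contr0 (f x) (τ x) := by
  apply continuous_pi
  intro i
  apply continuous_nz
  · apply continuous_pi
    intro l
    have hc : Continuous fun x => f x i l := (continuous_apply l).comp ((continuous_apply i).comp hf)
    exact ((continuous_const.sub hτ).mul hc).add (hτ.mul continuous_const)
  · intro x
    exact (contr0_spec (hZ x) (h0 x) (h1 x) i).1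

theorem AC_UW : AC (UW d) := by
  let H : C((UW d) × unitInterval, UW d) :=
    ⟨fun p => ⟨contr0 p.1.1 p.2.1, contr0_mem p.1.2 p.2.2.1 p.2.2.2⟩, by
      apply Continuous.subtype_mk
      exact continuous_contr0 (continuous_subtype_val.comp continuous_fst)
        (continuous_subtype_val.comp continuous_snd) (fun p => p.1.2) (fun p => p.2.2.1)
        (fun p => p.2.2.2)⟩
  apply AC_of_const H
  · apply ContinuousMap.ext
    intro y
    apply Subtype.ext
    change contr0 y.1 0 = y.1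
    funext i
    rw [contr0]
    simp only [sub_zero, one_mul, zero_mul, add_zero]
    exact nz_of_sq (Wd_sq y.2.1 i)
  · intro n σ t
    apply Subtype.ext
    change contr0 (σ t).1 1 = contr0 (σ (vert n 0)).1 1
    funext i
    rw [contr0, contr0]
    simp only [sub_self, zero_mul, zero_add]

theorem NT_Wd (n : ℕ) : NT (Wd d) n := by
  cases n with
  | zero => exact NT_zero
  | succ n =>
    have hcont : ∀ i : Fin k, Continuous fun y : Amb d => cc 0 (y i) := fun i =>
      (continuous_cc 0).comp (continuous_apply i)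
    have hcont0 : ∀ i : Fin k, Continuous fun y : Amb d => y i 0 := fun i =>
      (continuous_apply (0 : Fin (d i + 1))).comp (continuous_apply i)
    refine NT_glue' (Wd d) {y | ∀ i, -1 < cc 0 (y i)}
      {y | ∃ i, y i 0 ≠ 1} ?_ ?_ ?_ (UW d) (Zm d 0 (-1))
      (Em d 0) ?_ ?_ ?_ AC_UW
      (AC_Zm 0 (-1) (Or.inr rfl) (Or.inr rfl)) n (NT_Em 0 n (NT_Ym n 0))
    · rw [Set.ofPred_forall]
      exact isOpen_iInter_of_finite fun i => isOpen_lt continuous_const (hcont i)
    · rw [Set.ofPred_exists]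
      exact isOpen_iUnion fun i => isOpen_ne_fun (hcont0 i) continuous_const
    · intro y hy
      by_cases h : ∃ i, y i 0 ≠ 1
      · exact Or.inr h
      · left
        push Not at h
        intro i
        rw [cc_zero_eq, h i]
        norm_num
    · intro y
      exact Iff.rfl
    · intro y
      constructor
      · rintro ⟨h1, _⟩
        exact ⟨h1.1, h1.2.1⟩
      · rintro ⟨h1, h2⟩
        refine ⟨⟨h1, h2, fun i _ l hl => absurd hl (Nat.not_lt_zero _)⟩, fun i hi => ?_⟩
        rw [cc_zero_eq]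
        have := lt_of_le_of_ne (Wd_le h1 i) hi
        linarith
    · intro y
      constructor
      · rintro ⟨h1, h2⟩
        refine ⟨h1.1, fun i => ?_, h1.2.1⟩
        by_cases hi : y i 0 = 1
        · rw [cc_zero_eq, hi]; norm_num
        · exact (h2 i hi).1
      · rintro ⟨h1, h2, h3⟩
        refine ⟨⟨h1, h3, fun i _ l hl => absurd hl (Nat.not_lt_zero _)⟩, fun i hi => ?_⟩
        refine ⟨h2 i, ?_⟩
        rw [cc_zero_eq]
        exact lt_of_le_of_ne (Wd_le h1 i) hi

end Spaces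

end Pool.Agent.Helper663.Sc
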