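import Pool.Agent.Helper663.Sc.Prism

/-! No `2`-torsion in singular cohomology, acyclic spaces, and a gluing argument. -/

namespace Pool.Agent.Helper663.Sc

universe u v w

open Finsupp

/-- `H^(n+1)(X; ℤ)` has no `2`-torsion -/
def NT (X : Type u) [TopologicalSpace X] (n : ℕ) : Prop :=
  ∀ (c : Sing X (n + 1) → ℤ) (b : Sing X n → ℤ), (2 : ℤ) • c = altd ℤ (sface (X := X)) n b →
    ∃ b' : Sing X n → ℤ, c = altd ℤ (sface (X := X)) n b'

/-- the cohomology of `X` vanishes in positive degrees -/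
def AC (X : Type u) [TopologicalSpace X] : Prop :=
  ∀ (n : ℕ) (c : Sing X (n + 1) → ℤ), altd ℤ (sface (X := X)) (n + 1) c = 0 →
    ∃ b : Sing X n → ℤ, c = altd ℤ (sface (X := X)) n b

section Basic

variable {X : Type u} [TopologicalSpace X] {Y : Type v} [TopologicalSpace Y]

theorem two_smul_inj {α : Type u} {f g : α → ℤ} (h : (2 : ℤ) • f = (2 : ℤ) • g) : f = g := by
  funext a
  have := congrFun h a
  simp only [Pi.smul_apply, smul_eq_mul] at this
  omega

theorem saltd_saltd (n : ℕ) (f : Sing X n → ℤ) :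
    altd ℤ (sface (X := X)) (n + 1) (altd ℤ (sface (X := X)) n f) = 0 :=
  altd_altd _ (fun n i j σ h => sface_sface n i j σ h) n f

theorem cocycle_of_two (n : ℕ) (c : Sing X (n + 1) → ℤ) (b : Sing X n → ℤ)
    (h : (2 : ℤ) • c = altd ℤ (sface (X := X)) n b) : altd ℤ (sface (X := X)) (n + 1) c = 0 := by
  apply two_smul_inj
  rw [← map_smul, h, saltd_saltd, smul_zero]

theorem NT_zero : NT X 0 := by
  intro c b h
  refine ⟨fun σ => b σ / 2, ?_⟩
  have hc := cocycle_of_two 0 c b h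
  apply two_smul_inj
  rw [h]
  funext σ
  have h1 := congrFun h σ
  rw [Pi.smul_apply, altd_apply, Fin.sum_univ_two] at h1
  rw [Pi.smul_apply, altd_apply, altd_apply, Fin.sum_univ_two, Fin.sum_univ_two]
  simp only [Fin.val_zero, pow_zero, one_mul, Fin.val_one, pow_one, neg_mul, smul_eq_mul] at h1 ⊢
  omega

theorem NT_of_retract (s : C(X, Y)) (r : C(Y, X)) (H : C(X × unitInterval, X))
    (h0 : slice H 0 = ContinuousMap.id X) (h1 : slice H 1 = r.comp s) (n : ℕ) (hY : NT Y n) :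
    NT X n := by
  intro c b h
  have hc := cocycle_of_two n c b h
  obtain ⟨d, hd⟩ := exists_altd_eq_pb_sub H c hc
  have e1 : (2 : ℤ) • pb r c = altd ℤ (sface (X := Y)) n (pb r b) := by
    rw [altd_pb, ← h]
    rfl
  obtain ⟨b', hb'⟩ := hY _ _ e1
  refine ⟨pb s b' - d, ?_⟩
  rw [map_sub, altd_pb, ← hb', ← hd, h0, h1]
  funext σ
  simp [pb, ContinuousMap.comp_assoc]

theorem AC_of_retract (s : C(X, Y)) (r : C(Y, X)) (H : C(X × unitInterval, X))
    (h0 : slice H 0 = ContinuousMap.id X) (h1 : slice H 1 = r.comp s) (hY : AC Y) : AC X := by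
  intro n c hc
  obtain ⟨d, hd⟩ := exists_altd_eq_pb_sub H c hc
  have e1 : altd ℤ (sface (X := Y)) (n + 1) (pb r c) = 0 := by
    rw [altd_pb, hc]
    rfl
  obtain ⟨b', hb'⟩ := hY n _ e1
  refine ⟨pb s b' - d, ?_⟩
  rw [map_sub, altd_pb, ← hb', ← hd, h0, h1]
  funext σ
  simp [pb, ContinuousMap.comp_assoc]

theorem sum_alt (m : ℕ) (x : ℤ) :
    ∑ i : Fin m, (-1 : ℤ) ^ (i : ℕ) * x = if Even m then 0 else x := by
  rw [← Finset.sum_mul, Fin.sum_univ_eq_sum_range (fun i => (-1 : ℤ) ^ i) m, neg_one_geom_sum]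
  split_ifs <;> simp

/-- A space whose identity is homotopic to a map which is constant on all singular simplices
has no cohomology in positive degrees. -/
theorem AC_of_const (H : C(X × unitInterval, X)) (h0 : slice H 0 = ContinuousMap.id X)
    (h1 : ∀ (n : ℕ) (σ : Sing X n) (t : Dl n), slice H 1 (σ t) = slice H 1 (σ (vert n 0))) :
    AC X := by
  intro n c hc
  obtain ⟨d, hd⟩ := exists_altd_eq_pb_sub H c hc
  rw [h0] at hd
  have e0 : pb (ContinuousMap.id X) c = c := by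
    funext σ
    simp [pb]
  rw [e0] at hd
  -- the constant simplex
  let K : ∀ m, Sing X m → Sing X (n + 1) := fun m σ =>
    ContinuousMap.const _ (slice H 1 (σ (vert m 0)))
  have hK : ∀ (σ : Sing X (n + 1)), (slice H 1).comp σ = K (n + 1) σ := by
    intro σ
    apply ContinuousMap.ext
    intro t
    exact h1 _ σ t
  have hface : ∀ (m : ℕ) (σ : Sing X (m + 1)) (i : Fin (m + 2)),
      K m (sface m i σ) = K (m + 1) σ := by
    intro m σ i
    apply ContinuousMap.ext
    intro t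
    change slice H 1 (sface m i σ (vert m 0)) = slice H 1 (σ (vert (m + 1) 0))
    rw [sface_eq, ContinuousMap.comp_apply, h1 _ σ]
  -- evaluate the cocycle condition on constant simplices
  have hc2 : ∀ x : X, (if Even (n + 3) then (0 : ℤ) else c (ContinuousMap.const _ x)) = 0 := by
    intro x
    have := congrFun hc (ContinuousMap.const _ x)
    rw [altd_apply] at this
    have h2 : ∀ i : Fin (n + 3), sface (n + 1) i (ContinuousMap.const _ x) =
        ContinuousMap.const _ x := fun i => rfl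
    simp only [h2] at this
    rw [sum_alt] at this
    exact this
  have key : ∃ b' : Sing X n → ℤ, pb (slice H 1) c = altd ℤ (sface (X := X)) n b' := by
    by_cases hn : Even (n + 3)
    · refine ⟨fun σ => c (K n σ), ?_⟩
      funext σ
      rw [altd_apply]
      simp only [hface]
      rw [sum_alt, if_neg]
      · rw [pb, hK]
      · intro hh
        rw [Nat.even_iff] at hn hh
        omega
    · refine ⟨0, ?_⟩
      funext σ
      rw [map_zero, pb, hK]
      have := hc2 (slice H 1 (σ (vert (n + 1) 0)))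
      rw [if_neg hn] at this
      exact this
  obtain ⟨b', hb'⟩ := key
  refine ⟨b' - d, ?_⟩
  rw [map_sub, ← hd, ← hb']
  abel

end Basic

section Small

variable {X : Type u} [TopologicalSpace X] (𝒞 : Set (Set X))

theorem cobound_of_small (hopen : ∀ C ∈ 𝒞, IsOpen C) (hcov : ∀ x : X, ∃ C ∈ 𝒞, x ∈ C) (n : ℕ)
    (f : Sing X (n + 1) → ℤ) (hf : altd ℤ (sface (X := X)) (n + 1) f = 0)
    (h : Sing X n → ℤ)
    (hfh : ∀ σ ∈ smallSet 𝒞 (n + 1), f σ = altd ℤ (sface (X := X)) n h σ) :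
    ∃ h' : Sing X n → ℤ, f = altd ℤ (sface (X := X)) n h' := by
  refine ⟨fun σ => evc h (rho 𝒞 n (single σ 1)) + evc f (DD 𝒞 n (single σ 1)), ?_⟩
  funext σ
  rw [altd_eq_ev]
  have h1 : Finsupp.linearCombination ℤ
      (fun σ => evc h (rho 𝒞 n (single σ 1)) + evc f (DD 𝒞 n (single σ 1))) =
      (evc h).comp (rho 𝒞 n) + (evc f).comp (DD 𝒞 n) := by
    apply Finsupp.lhom_ext'
    intro σ
    apply LinearMap.ext_ring
    simp only [LinearMap.comp_apply, lsingle_apply, linearCombination_single, one_smul,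
      LinearMap.add_apply]
  rw [h1, LinearMap.add_apply, LinearMap.comp_apply, LinearMap.comp_apply]
  have h2 : f σ = evc f (rho 𝒞 (n + 1) (single σ 1)) +
      evc f (sbd X (n + 1) (DD 𝒞 (n + 1) (single σ 1))) +
      evc f (DD 𝒞 n (sbd X n (single σ 1))) := by
    rw [rho_succ, map_sub, map_sub, evc_single]
    ring
  rw [h2]
  have h3 : evc f (sbd X (n + 1) (DD 𝒞 (n + 1) (single σ 1))) = 0 := by
    rw [← ev_altd, hf]
    simp
  have h4 : evc f (rho 𝒞 (n + 1) (single σ 1)) =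
      evc h (rho 𝒞 n (sbd X n (single σ 1))) := by
    rw [← sbd_rho, ← ev_altd]
    apply evc_congr (smallSet 𝒞 (n + 1)) _ _ _ _ (rho_small 𝒞 hopen hcov (n + 1) _)
    intro τ hτ
    exact hfh τ hτ
  rw [h3, h4, add_zero]

/-- inclusion of a subspace -/
def incl (A : Set X) : C(A, X) := ⟨Subtype.val, continuous_subtype_val⟩

/-- restrict the codomain of a singular simplex -/
def toSub (A : Set X) {q : ℕ} (σ : Sing X q) (h : Set.range σ ⊆ A) : Sing A q :=
  ⟨fun u => ⟨σ u, h ⟨u, rfl⟩⟩, σ.continuous.subtype_mk _⟩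

theorem incl_toSub (A : Set X) {q : ℕ} (σ : Sing X q) (h : Set.range σ ⊆ A) :
    (incl A).comp (toSub A σ h) = σ := rfl

theorem sface_toSub (A : Set X) {q : ℕ} (σ : Sing X (q + 1)) (h : Set.range σ ⊆ A)
    (i : Fin (q + 2)) :
    sface q i (toSub A σ h) = toSub A (sface q i σ) ((range_sface q i σ).trans h) := rfl

open Classical in
/-- extension by zero of a cochain on a subspace -/
noncomputable def ext0 (A : Set X) {q : ℕ} (c : Sing A q → ℤ) : Sing X q → ℤ :=
  fun σ => if h : Set.range σ ⊆ A then c (toSub A σ h) else 0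

theorem ext0_of (A : Set X) {q : ℕ} (c : Sing A q → ℤ) (σ : Sing X q) (h : Set.range σ ⊆ A) :
    ext0 A c σ = c (toSub A σ h) := dif_pos h

theorem altd_ext0 (A : Set X) {q : ℕ} (c : Sing A q → ℤ) (σ : Sing X (q + 1))
    (h : Set.range σ ⊆ A) :
    altd ℤ (sface (X := X)) q (ext0 A c) σ = altd ℤ (sface (X := A)) q c (toSub A σ h) := by
  rw [altd_apply, altd_apply]
  refine Finset.sum_congr rfl fun i _ => ?_
  rw [ext0_of A c _ ((range_sface q i σ).trans h)]
  rfl

/-- relative form of the acyclicity -/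
theorem AC_rel (A : Set X) (hA : AC A) (n : ℕ) (c : Sing X (n + 1) → ℤ)
    (hc : ∀ σ : Sing X (n + 2), Set.range σ ⊆ A → altd ℤ (sface (X := X)) (n + 1) c σ = 0) :
    ∃ b : Sing X n → ℤ, ∀ σ : Sing X (n + 1), Set.range σ ⊆ A →
      c σ = altd ℤ (sface (X := X)) n b σ := by
  obtain ⟨b, hb⟩ := hA n (pb (incl A) c) (by
    funext σ
    rw [altd_pb]
    apply hc
    rintro _ ⟨t, rfl⟩
    exact (σ t).2)
  refine ⟨ext0 A b, fun σ h => ?_⟩
  rw [altd_ext0 A b σ h, ← hb]
  rfl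

/-- relative form of `NT` -/
theorem NT_rel (A : Set X) (n : ℕ) (hA : NT A n) (c : Sing X (n + 1) → ℤ) (b : Sing X n → ℤ)
    (hc : ∀ σ : Sing X (n + 1), Set.range σ ⊆ A → 2 * c σ = altd ℤ (sface (X := X)) n b σ) :
    ∃ b' : Sing X n → ℤ, ∀ σ : Sing X (n + 1), Set.range σ ⊆ A →
      c σ = altd ℤ (sface (X := X)) n b' σ := by
  obtain ⟨b', hb'⟩ := hA (pb (incl A) c) (pb (incl A) b) (by
    funext σ
    rw [altd_pb]
    apply hc
    rintro _ ⟨t, rfl⟩
    exact (σ t).2)
  refine ⟨ext0 A b', fun σ h => ?_⟩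
  rw [altd_ext0 A b' σ h, ← hb']
  rfl

theorem range_of_sface {A : Set X} {q : ℕ} {σ : Sing X (q + 1)} (h : Set.range σ ⊆ A)
    (i : Fin (q + 2)) : Set.range (sface q i σ) ⊆ A := (range_sface q i σ).trans h

theorem altd_congr {q : ℕ} {f g : Sing X q → ℤ} {A : Set X}
    (hfg : ∀ σ : Sing X q, Set.range σ ⊆ A → f σ = g σ) (σ : Sing X (q + 1))
    (h : Set.range σ ⊆ A) :
    altd ℤ (sface (X := X)) q f σ = altd ℤ (sface (X := X)) q g σ := by
  rw [altd_apply, altd_apply]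
  refine Finset.sum_congr rfl fun i _ => ?_
  rw [hfg _ (range_of_sface h i)]

open Classical in
/-- the gluing argument -/
theorem NT_glue (U V : Set X) (hU : IsOpen U) (hV : IsOpen V) (hUV : ∀ x, x ∈ U ∨ x ∈ V)
    (aU : AC U) (aV : AC V) (n : ℕ) (hI : NT (U ∩ V : Set X) n) : NT X (n + 1) := by
  intro c b h
  have hc := cocycle_of_two (n + 1) c b h
  have h2 : ∀ σ, 2 * c σ = altd ℤ (sface (X := X)) (n + 1) b σ := fun σ => congrFun h σ
  obtain ⟨u, hu⟩ := AC_rel U aU (n + 1) c (fun σ _ => congrFun hc σ)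
  obtain ⟨v, hv⟩ := AC_rel V aV (n + 1) c (fun σ _ => congrFun hc σ)
  obtain ⟨p, hp⟩ := AC_rel U aU n ((2 : ℤ) • u - b) (by
    intro σ hσ
    rw [map_sub, map_smul, Pi.sub_apply, Pi.smul_apply, ← hu σ hσ, smul_eq_mul, h2 σ, sub_self])
  obtain ⟨q, hq⟩ := AC_rel V aV n ((2 : ℤ) • v - b) (by
    intro σ hσ
    rw [map_sub, map_smul, Pi.sub_apply, Pi.smul_apply, ← hv σ hσ, smul_eq_mul, h2 σ, sub_self])
  obtain ⟨e, he⟩ := NT_rel (U ∩ V) n hI (u - v) (p - q) (by
    intro σ hσ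
    have h3 := hp σ (hσ.trans Set.inter_subset_left)
    have h4 := hq σ (hσ.trans Set.inter_subset_right)
    rw [map_sub, Pi.sub_apply, Pi.sub_apply, ← h3, ← h4]
    simp only [Pi.sub_apply, Pi.smul_apply, smul_eq_mul]
    ring)
  let w : Sing X (n + 1) → ℤ := fun σ =>
    if Set.range σ ⊆ U then (u - altd ℤ (sface (X := X)) n e) σ else v σ
  have wU : ∀ σ : Sing X (n + 1), Set.range σ ⊆ U →
      w σ = (u - altd ℤ (sface (X := X)) n e) σ := fun σ hσ => if_pos hσ
  have wV : ∀ σ : Sing X (n + 1), Set.range σ ⊆ V → w σ = v σ := by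
    intro σ hσ
    by_cases hσ' : Set.range σ ⊆ U
    · rw [wU σ hσ', Pi.sub_apply, ← he σ (Set.subset_inter hσ' hσ), Pi.sub_apply]
      ring
    · exact if_neg hσ'
  apply cobound_of_small {U, V} _ _ (n + 1) c hc w
  · rintro σ ⟨C, hC, hσ⟩
    rcases hC with rfl | hC
    · rw [altd_congr wU σ hσ, map_sub, saltd_saltd, sub_zero]
      exact hu σ hσ
    · rw [Set.mem_singleton_iff] at hC
      subst hC
      rw [altd_congr wV σ hσ]
      exact hv σ hσ
  · rintro C (rfl | hC)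
    · exact hU
    · rw [Set.mem_singleton_iff] at hC
      rw [hC]
      exact hV
  · intro x
    rcases hUV x with hx | hx
    · exact ⟨U, by simp, hx⟩
    · exact ⟨V, by simp, hx⟩

end Small

section Ambient

variable {X : Type u} [TopologicalSpace X]

theorem slice_const {Y : Type v} [TopologicalSpace Y] (f : C(Y, Y)) (t : unitInterval) :
    slice (f.comp ⟨Prod.fst, continuous_fst⟩ : C(Y × unitInterval, Y)) t = f := rfl

/-- `AC` and `NT` are invariant under homeomorphism. -/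
theorem AC_congr {Y : Type v} [TopologicalSpace Y] {Z : Type w} [TopologicalSpace Z]
    (e : Y ≃ₜ Z) (h : AC Z) : AC Y := by
  refine AC_of_retract (e : C(Y, Z)) (e.symm : C(Z, Y))
    ((ContinuousMap.id Y).comp ⟨Prod.fst, continuous_fst⟩) (slice_const _ _) ?_ h
  rw [slice_const]
  apply ContinuousMap.ext
  intro y
  simp

theorem NT_congr {Y : Type v} [TopologicalSpace Y] {Z : Type w} [TopologicalSpace Z]
    (e : Y ≃ₜ Z) (n : ℕ) (h : NT Z n) : NT Y n := by
  refine NT_of_retract (e : C(Y, Z)) (e.symm : C(Z, Y))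
    ((ContinuousMap.id Y).comp ⟨Prod.fst, continuous_fst⟩) (slice_const _ _) ?_ n h
  rw [slice_const]
  apply ContinuousMap.ext
  intro y
  simp

/-- a subset of a subspace as a subspace of the ambient space -/
def subHomeo (A : Set X) (B : Set A) (C : Set X) (h : ∀ x, x ∈ C ↔ ∃ hx : x ∈ A, (⟨x, hx⟩ : A) ∈ B) :
    B ≃ₜ C where
  toFun x := ⟨x.1.1, (h _).2 ⟨x.1.2, x.2⟩⟩
  invFun x := ⟨⟨x.1, ((h _).1 x.2).1⟩, ((h _).1 x.2).2⟩
  left_inv _ := rfl
  right_inv _ := rfl
  continuous_toFun := (continuous_subtype_val.comp continuous_subtype_val).subtype_mk _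
  continuous_invFun := (continuous_subtype_val.subtype_mk _).subtype_mk _

theorem NT_glue' (A U V : Set X) (hU : IsOpen U) (hV : IsOpen V) (hUV : ∀ x ∈ A, x ∈ U ∨ x ∈ V)
    (AU AV AI : Set X) (eU : ∀ x, x ∈ AU ↔ x ∈ A ∧ x ∈ U) (eV : ∀ x, x ∈ AV ↔ x ∈ A ∧ x ∈ V)
    (eI : ∀ x, x ∈ AI ↔ x ∈ A ∧ x ∈ U ∧ x ∈ V)
    (aU : AC AU) (aV : AC AV) (n : ℕ) (hI : NT AI n) : NT A (n + 1) := by
  apply NT_glue (Subtype.val ⁻¹' U : Set A) (Subtype.val ⁻¹' V)
    (hU.preimage continuous_subtype_val) (hV.preimage continuous_subtype_val)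
    (fun x => hUV x.1 x.2)
  · apply AC_congr (subHomeo A _ AU _) aU
    intro x
    rw [eU]
    constructor
    · rintro ⟨h1, h2⟩; exact ⟨h1, h2⟩
    · rintro ⟨h1, h2⟩; exact ⟨h1, h2⟩
  · apply AC_congr (subHomeo A _ AV _) aV
    intro x
    rw [eV]
    constructor
    · rintro ⟨h1, h2⟩; exact ⟨h1, h2⟩
    · rintro ⟨h1, h2⟩; exact ⟨h1, h2⟩
  · apply NT_congr (subHomeo A _ AI _) n hI
    intro x
    rw [eI]
    constructor
    · rintro ⟨h1, h2⟩; exact ⟨h1, h2⟩
    · rintro ⟨h1, h2⟩; exact ⟨h1, h2⟩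

end Ambient

end Pool.Agent.Helper663.Sc
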